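import Pool.Agent.Lib.MP_c80ac4_an.HZ.Defs

/-!
# Row FEJ: the factors are nonnegative

`fej`: `(d+1) ∑ |a| ≤ d, (1 - |a|/(d+1)) w^a = ∑ x ≤ d, ∑ y ≤ d, w^(x-y) = |∑ x ≤ d, w^x|²` for
`|w| = 1`; induction on `d`: both sides grow by `∑ |a| ≤ d+1, w^a` (left: `d + 2 - |a|` instead of
`d + 1 - |a|`, and `0` for `|a| = d + 1` before). Then `w = z^n`.
`fc_A`: the sum over `a ∈ {-1, 0, 1}` is the factor of `Forcing.RZ.rp` (see `rp_nonneg`).
-/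

namespace Forcing.HZ

open Complex Metric Set MeasureTheory Filter Topology Forcing.RZ Forcing.UN

private theorem fej_split (d : ℕ) (f : ℤ → ℂ) :
    ∑ a ∈ Finset.Icc (-((d + 1 : ℕ) : ℤ)) ((d + 1 : ℕ) : ℤ), f a =
      f (-((d + 1 : ℕ) : ℤ)) + (f ((d + 1 : ℕ) : ℤ) + ∑ a ∈ Finset.Icc (-(d : ℤ)) d, f a) := by
  have h1 : Finset.Icc (-((d + 1 : ℕ) : ℤ)) ((d + 1 : ℕ) : ℤ) =
      insert (-((d + 1 : ℕ) : ℤ)) (insert ((d + 1 : ℕ) : ℤ) (Finset.Icc (-(d : ℤ)) d)) := by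
    ext a
    simp only [Finset.mem_insert, Finset.mem_Icc]
    push_cast
    constructor
    · rintro ⟨h1, h2⟩
      omega
    · rintro (h | h | ⟨h1, h2⟩)
      · omega
      · omega
      · omega
  rw [h1, Finset.sum_insert, Finset.sum_insert]
  · simp only [Finset.mem_Icc]
    push_cast
    omega
  · simp only [Finset.mem_insert, Finset.mem_Icc]
    push_cast
    omega

private theorem fej_refl {w : ℂ} (hw : w ≠ 0) (d : ℕ) :
    w ^ (d + 1) * ∑ x ∈ Finset.range (d + 1), (w⁻¹) ^ x = ∑ x ∈ Finset.range (d + 2), w ^ x - 1 := by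
  induction d with
  | zero =>
    simp [Finset.sum_range_succ]
  | succ d ih =>
    rw [Finset.sum_range_succ _ (d + 1), mul_add, pow_succ' w (d + 1), mul_assoc, ih]
    have h1 : w * w ^ (d + 1) * w⁻¹ ^ (d + 1) = w := by
      rw [inv_pow, mul_assoc, mul_inv_cancel₀ (pow_ne_zero _ hw), mul_one]
    rw [h1, geom_sum_succ (x := w) (n := d + 2)]
    ring

private theorem fej_D {w : ℂ} (d : ℕ) :
    ∑ a ∈ Finset.Icc (-(d : ℤ)) d, w ^ a =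
      ∑ x ∈ Finset.range (d + 1), w ^ x + ∑ x ∈ Finset.range (d + 1), (w⁻¹) ^ x - 1 := by
  induction d with
  | zero => simp
  | succ d ih =>
    rw [fej_split, ih, Finset.sum_range_succ _ (d + 1), Finset.sum_range_succ _ (d + 1), zpow_neg,
      zpow_natCast, inv_pow]
    ring

private theorem fej_T {w : ℂ} (hw : w ≠ 0) (d : ℕ) :
    ∑ a ∈ Finset.Icc (-(d : ℤ)) d, ((d : ℂ) + 1 - (|a| : ℤ)) * w ^ a =
      (∑ x ∈ Finset.range (d + 1), w ^ x) * ∑ x ∈ Finset.range (d + 1), (w⁻¹) ^ x := by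
  induction d with
  | zero => simp
  | succ d ih =>
    have hD := fej_D (w := w) (d + 1)
    rw [fej_split] at hD
    have h1 := fej_refl hw d
    have h2 := fej_refl (inv_ne_zero hw) d
    rw [inv_inv] at h2
    have e1 : ∑ a ∈ Finset.Icc (-(d : ℤ)) d, (((d + 1 : ℕ) : ℂ) + 1 - (|a| : ℤ)) * w ^ a =
        ∑ a ∈ Finset.Icc (-(d : ℤ)) d, ((d : ℂ) + 1 - (|a| : ℤ)) * w ^ a + ∑ a ∈ Finset.Icc (-(d : ℤ)) d, w ^ a := by
      rw [← Finset.sum_add_distrib]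
      refine Finset.sum_congr rfl fun a _ => ?_
      push_cast
      ring
    rw [fej_split, e1, ih]
    have a1 : |(-((d + 1 : ℕ) : ℤ))| = ((d + 1 : ℕ) : ℤ) := by
      rw [abs_neg, Nat.abs_cast]
    have a2 : |(((d + 1 : ℕ) : ℤ))| = ((d + 1 : ℕ) : ℤ) := Nat.abs_cast _
    rw [a1, a2]
    have h3 : w ^ (d + 1) * (w⁻¹) ^ (d + 1) = 1 := by
      rw [inv_pow, mul_inv_cancel₀ (pow_ne_zero _ hw)]
    have s1 := Finset.sum_range_succ (fun x => w ^ x) (d + 1)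
    have s2 := Finset.sum_range_succ (fun x => (w⁻¹) ^ x) (d + 1)
    rw [s1, s2] at hD ⊢
    rw [s1] at h1
    rw [s2] at h2
    push_cast at hD ⊢
    linear_combination hD - h1 - h2 - h3

theorem fej (d : ℕ) {w : ℂ} (hw : ‖w‖ = 1) : ∃ t : ℝ, 0 ≤ t ∧
    ∑ a ∈ Finset.Icc (-(d : ℤ)) d, (1 - (|a| : ℤ) / ((d : ℂ) + 1)) * w ^ a = t := by
  have hw0 : w ≠ 0 := by
    rintro rfl
    simp at hw
  have hw1 : (starRingEnd ℂ) w = w⁻¹ := by
    rw [Complex.inv_def, Complex.normSq_eq_norm_sq, hw]; simp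
  have hd : ((d : ℂ) + 1) ≠ 0 := by
    exact_mod_cast Nat.succ_ne_zero d
  refine ⟨Complex.normSq (∑ x ∈ Finset.range (d + 1), w ^ x) / ((d : ℝ) + 1),
    div_nonneg (Complex.normSq_nonneg _) (by positivity), ?_⟩
  have h1 : ∑ a ∈ Finset.Icc (-(d : ℤ)) d, (1 - (|a| : ℤ) / ((d : ℂ) + 1)) * w ^ a =
      (∑ a ∈ Finset.Icc (-(d : ℤ)) d, ((d : ℂ) + 1 - (|a| : ℤ)) * w ^ a) / ((d : ℂ) + 1) := by
    rw [Finset.sum_div]
    refine Finset.sum_congr rfl fun a _ => ?_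
    field_simp
  rw [h1, fej_T hw0]
  push_cast
  rw [← Complex.mul_conj, map_sum]
  congr 2
  refine Finset.sum_congr rfl fun x _ => ?_
  rw [map_pow, hw1]

theorem fc_V {k₀ : ℕ} {A : Finset ℕ} {ε : ℕ → ℂ} {n : ℕ} (hn : n ∉ A) {z : ℂ} (hz : ‖z‖ = 1) :
    ∃ t : ℝ, 0 ≤ t ∧ fc (ee k₀ A) (cc k₀ A ε) n z = t := by
  obtain ⟨t, ht0, ht⟩ := fej (ee k₀ A n) (w := z ^ n) (by rw [norm_pow, hz, one_pow])
  refine ⟨t, ht0, ?_⟩
  rw [← ht]
  unfold fc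
  refine Finset.sum_congr rfl fun a _ => ?_
  have h1 : cc k₀ A ε n a = 1 - (|a| : ℤ) / ((ee k₀ A n : ℂ) + 1) := by
    unfold cc
    rw [if_neg hn]
  rw [h1, mul_comm a (n : ℤ), zpow_mul, zpow_natCast]

theorem fc_A {k₀ : ℕ} {A : Finset ℕ} {ε : ℕ → ℂ} (hε : ∀ n, ‖ε n‖ ≤ 1) {n : ℕ} (hn : n ∈ A)
    {z : ℂ} (hz : ‖z‖ = 1) : ∃ t : ℝ, 0 ≤ t ∧ fc (ee k₀ A) (cc k₀ A ε) n z = t := by
  obtain ⟨t, ht0, ht⟩ := rp_nonneg hε {n} hz
  refine ⟨t, ht0, ?_⟩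
  rw [← ht]
  unfold fc rp
  have he : ee k₀ A n = 1 := by
    unfold ee
    rw [if_pos hn]
  have h1 : Finset.Icc (-((1 : ℕ) : ℤ)) ((1 : ℕ) : ℤ) = {-1, 0, 1} := by decide
  have c0 : cc k₀ A ε n 0 = 1 := by
    unfold cc
    rw [if_pos hn, if_pos rfl]
  have c1 : cc k₀ A ε n (-1) = ε n / 2 := by
    unfold cc
    rw [if_pos hn, if_neg (by decide), if_pos rfl]
  have c2 : cc k₀ A ε n 1 = (starRingEnd ℂ) (ε n) / 2 := by
    unfold cc
    rw [if_pos hn, if_neg (by decide), if_neg (by decide)]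
  rw [he, h1, Finset.sum_insert (by decide), Finset.sum_insert (by decide), Finset.sum_singleton,
    Finset.prod_singleton, c0, c1, c2, zero_mul, zpow_zero, one_mul, neg_one_mul]
  ring_nf

end Forcing.HZ
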