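import Pool.Agent.Lib.MP_c80ac4_an.HZ.Num

/-!
# Row SDW: the degree below a frequency `tt l` and below 1

PROOF of `sd_W`: `n = tt l`, `k₀ < l`. The element 1 gives `bd k₀ ≤ tt l / 16^(4l+4)` (`bd_lt`). The
`tt k ∈ WW`, `k < l`, give `tt k * dg k ≤ bd k ≤ tt l / 16^(4l+4)` each, at most `l` of them, and
`l ≤ 16^l`. The elements `a ∈ A`, `a < tt l`, are not near `l` and `a < tt l ≤ 16^l (tt l * dg l)`, so
`16^l a < tt l`, hence `Q a ≤ 16^k₀ a ≤ tt l / 16`, and their sum is at most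
`(tt l / 16) / (Q - 1) ≤ tt l / 64` (`RZ.gap_sum_le`). Total `< tt l / 4`.
`sd_one`: there is no element below 1 (`0 ∉ UU`).
-/

namespace Forcing.HZ

open Forcing.RZ

private theorem sum_ins (f : ℕ → ℕ) (x : ℕ) (s : Finset ℕ) : ∑ k ∈ insert x s, f k ≤ f x + ∑ k ∈ s, f k := by
  by_cases h : x ∈ s
  · rw [Finset.insert_eq_of_mem h]
    exact Nat.le_add_left _ _
  · rw [Finset.sum_insert h]

private theorem sum_uni (f : ℕ → ℕ) (s t : Finset ℕ) : ∑ k ∈ s ∪ t, f k ≤ ∑ k ∈ s, f k + ∑ k ∈ t, f k := by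
  have h := Finset.sum_union_inter (s₁ := s) (s₂ := t) (f := f)
  omega

theorem sd_W {i k₀ T : ℕ} {Q : ℝ} (hQ : 5 ≤ Q) (hQk : Q ≤ 16 ^ k₀) {A : Finset ℕ} (hA : Lc Q A)
    (hN : ∀ n ∈ A, tt (k₀ + 1) ≤ n) (hAw : Away i A) {n : ℕ} (hn : n ∈ WW i k₀ T) :
    4 * sd (ee k₀ A) (UU i k₀ T A) n < n := by
  unfold WW at hn
  rw [Finset.mem_image] at hn
  obtain ⟨l, hl, rfl⟩ := hn
  rw [Finset.mem_filter, Finset.mem_Ioo] at hl
  obtain ⟨⟨hl1, hl2⟩, hgl⟩ := hl
  have h1A : (1 : ℕ) ∉ A := fun h => by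
    have h1 := hN 1 h
    have h2 := le_tt (k₀ + 1)
    omega
  have hWA : ∀ k, gr k = i → tt k ∉ A := fun k hk h => hAw (tt k) h k hk (near_self k)
  have hsub : (UU i k₀ T A).filter (· < tt l) ⊆
      insert 1 ((A.filter (· < tt l)) ∪ ((Finset.range l).filter (fun k => gr k = i)).image tt) := by
    intro x hx
    rw [Finset.mem_filter] at hx
    obtain ⟨hx1, hx2⟩ := hx
    unfold UU at hx1
    rw [Finset.mem_insert, Finset.mem_union] at hx1
    rw [Finset.mem_insert, Finset.mem_union]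
    rcases hx1 with rfl | hx1 | hx1
    · exact Or.inl rfl
    · exact Or.inr (Or.inl (Finset.mem_filter.2 ⟨hx1, hx2⟩))
    · unfold WW at hx1
      rw [Finset.mem_image] at hx1
      obtain ⟨k, hk, rfl⟩ := hx1
      rw [Finset.mem_filter] at hk
      right
      right
      exact Finset.mem_image.2 ⟨k, Finset.mem_filter.2
        ⟨Finset.mem_range.2 (tt_strictMono.lt_iff_lt.1 hx2), hk.2⟩, rfl⟩
  have hbound : sd (ee k₀ A) (UU i k₀ T A) (tt l) ≤
      bd k₀ + (∑ a ∈ A.filter (· < tt l), a + ∑ k ∈ Finset.range l, bd k) := by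
    unfold sd
    refine (Finset.sum_le_sum_of_subset hsub).trans ((sum_ins _ _ _).trans ?_)
    have e1 : ee k₀ A 1 * 1 = bd k₀ := by
      unfold ee
      rw [if_neg h1A, if_pos rfl, mul_one]
    have e2 : ∑ k ∈ A.filter (· < tt l), ee k₀ A k * k = ∑ a ∈ A.filter (· < tt l), a := by
      apply Finset.sum_congr rfl
      intro x hx
      unfold ee
      rw [if_pos (Finset.mem_filter.1 hx).1, one_mul]
    have e3 : ∑ k ∈ ((Finset.range l).filter (fun k => gr k = i)).image tt, ee k₀ A k * k ≤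
        ∑ k ∈ Finset.range l, bd k := by
      rw [Finset.sum_image (fun x _ y _ h => tt_strictMono.injective h)]
      calc ∑ k ∈ (Finset.range l).filter (fun k => gr k = i), ee k₀ A (tt k) * tt k
          ≤ ∑ k ∈ (Finset.range l).filter (fun k => gr k = i), bd k := by
            apply Finset.sum_le_sum
            intro k hk
            have hk2 := (Finset.mem_filter.1 hk).2
            have h16 := le_tt k
            unfold ee
            rw [if_neg (hWA k hk2), if_neg (by omega), ix_tt, mul_comm]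
            exact mul_dg_le k
        _ ≤ ∑ k ∈ Finset.range l, bd k := Finset.sum_le_sum_of_subset (Finset.filter_subset _ _)
    rw [e1]
    refine Nat.add_le_add_left ((sum_uni _ _ _).trans ?_) _
    rw [e2]
    exact Nat.add_le_add_left e3 _
  have hSA : 64 * (∑ a ∈ A.filter (· < tt l), (a : ℝ)) ≤ tt l := by
    have h1 : ∀ a ∈ A.filter (· < tt l), Q * a ≤ (tt l : ℝ) / 16 := by
      intro a ha
      rw [Finset.mem_filter] at ha
      have h3 : 16 ^ l * a < tt l := by
        rcases not_near (hAw a ha.1 l hgl) with h2 | h2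
        · exact h2
        · exfalso
          have h4 := dg_pos l
          have h5 : 1 ≤ 16 ^ l := Nat.one_le_pow _ _ (by norm_num)
          have h6 : tt l ≤ 16 ^ l * (tt l * dg l) := by
            calc tt l = 1 * (tt l * 1) := by ring
              _ ≤ 16 ^ l * (tt l * dg l) := Nat.mul_le_mul h5 (Nat.mul_le_mul_left _ h4)
          have h7 := ha.2
          omega
      have h7 : (16 : ℝ) ^ l * a < tt l := by exact_mod_cast h3
      have h8 : (16 : ℝ) ^ (k₀ + 1) ≤ 16 ^ l := pow_le_pow_right₀ (by norm_num) hl1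
      have h9 : (0 : ℝ) ≤ a := Nat.cast_nonneg _
      have h10 : Q * a ≤ 16 ^ k₀ * a := mul_le_mul_of_nonneg_right hQk h9
      have h11 : 16 * ((16 : ℝ) ^ k₀ * a) ≤ 16 ^ l * a := by
        have h12 := mul_le_mul_of_nonneg_right h8 h9
        rw [pow_succ] at h12
        linarith
      linarith
    have h2 := gap_sum_le (by linarith : 1 < Q) (A.filter (· < tt l))
      (fun m hm n hn => hA m (Finset.mem_filter.1 hm).1 n (Finset.mem_filter.1 hn).1)
      ((tt l : ℝ) / 16) (by positivity) h1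
    have h3 : (tt l : ℝ) / 16 / (Q - 1) ≤ (tt l : ℝ) / 16 / 4 :=
      div_le_div_of_nonneg_left (by positivity) (by norm_num) (by linarith)
    linarith
  set X : ℕ := bd k₀ + ∑ k ∈ Finset.range l, bd k with hX
  have hX1 : 16 ^ (4 * l + 4) * X ≤ (l + 1) * tt l := by
    have h1 := bd_lt hl1
    have h2 : ∑ k ∈ Finset.range l, 16 ^ (4 * l + 4) * bd k ≤ ∑ k ∈ Finset.range l, tt l :=
      Finset.sum_le_sum fun k hk => bd_lt (Finset.mem_range.1 hk)
    rw [Finset.sum_const, Finset.card_range, smul_eq_mul, ← Finset.mul_sum] at h2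
    rw [hX, mul_add, add_mul, one_mul]
    omega
  have hX2 : 65536 * X ≤ tt l := by
    have hl' : l + 1 ≤ 16 ^ l := Nat.lt_pow_self (by norm_num)
    have h3 : 16 ^ l * (65536 * X) ≤ 16 ^ l * tt l := by
      calc 16 ^ l * (65536 * X) = 16 ^ (l + 4) * X := by
            rw [pow_add]
            ring
        _ ≤ 16 ^ (4 * l + 4) * X := Nat.mul_le_mul_right _ (Nat.pow_le_pow_right (by norm_num) (by omega))
        _ ≤ (l + 1) * tt l := hX1
        _ ≤ 16 ^ l * tt l := Nat.mul_le_mul_right _ hl'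
    exact Nat.le_of_mul_le_mul_left h3 (by positivity)
  have h16 := le_tt l
  have hSA' : 64 * (∑ a ∈ A.filter (· < tt l), a) ≤ tt l := by
    have h : ((64 * (∑ a ∈ A.filter (· < tt l), a) : ℕ) : ℝ) ≤ ((tt l : ℕ) : ℝ) := by
      push_cast
      exact hSA
    exact Nat.cast_le.1 h
  omega

theorem sd_one {i k₀ T : ℕ} {A : Finset ℕ} (hN : ∀ n ∈ A, tt (k₀ + 1) ≤ n) :
    sd (ee k₀ A) (UU i k₀ T A) 1 = 0 := by
  unfold sd
  apply Finset.sum_eq_zero
  intro x hx
  have hx2 := (Finset.mem_filter.1 hx).2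
  have hx0 : x = 0 := by omega
  rw [hx0, mul_zero]

end Forcing.HZ
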