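import Pool.Agent.Lib.MP_c80ac4_an.HZ.SdA
import Pool.Agent.Lib.MP_c80ac4_an.HZ.SdW
import Pool.Agent.Lib.MP_c80ac4_an.HZ.Fej

/-!
# Row AD: the product is admissible, and the elements of `s` are separated

`adm`: `gap` from `sd_A` (`2 sd < 4 c n ≤ n`), `sd_W`, `sd_one`; `nn` from `fc_A`, `fc_V`; `one` by
definition of `cc`; `deg` from `dg_pos`, `bd k₀ ≥ 1`.
`sep`: let `n ∈ UU`, `n ≠ m`, `a ≠ 0`, `|a| ≤ ee n`. If `n ∈ A`: `a = ± 1`, `|m - n| ≥ 2 c n > sd n`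
(`hmA`, `sd_A`), `m + n > sd n`. If `n = 1` (not in `A`): `|m + a| ≥ m - bd k₀ > 0 = sd 1` (`bd_lt`,
`tt (k₀+1) ≤ m`). If `n = tt k ∈ WW`: `m` is not near `k`: either `16^k m < tt k`, so
`|m + a n| ≥ n - m ≥ n / 2 > sd n`, or `16^k (tt k * dg k) < m`, so `|m + a n| ≥ m - dg k * tt k ≥
tt k > sd n` (`sd_W`).
-/

namespace Forcing.HZ

private theorem ad_cases {i k₀ T : ℕ} {A : Finset ℕ} {n : ℕ} (hn : n ∈ UU i k₀ T A) :
    n = 1 ∨ n ∈ A ∨ ∃ k, gr k = i ∧ k₀ < k ∧ k < T ∧ n = tt k := by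
  unfold UU at hn
  rcases Finset.mem_insert.1 hn with h | h
  · exact Or.inl h
  rcases Finset.mem_union.1 h with h | h
  · exact Or.inr (Or.inl h)
  · refine Or.inr (Or.inr ?_)
    unfold WW at h
    obtain ⟨k, hk, rfl⟩ := Finset.mem_image.1 h
    obtain ⟨hk1, hk2⟩ := Finset.mem_filter.1 hk
    obtain ⟨hk3, hk4⟩ := Finset.mem_Ioo.1 hk1
    exact ⟨k, hk2, hk3, hk4, rfl⟩

private theorem ad_WW {i k₀ T k n : ℕ} (h1 : gr k = i) (h2 : k₀ < k) (h3 : k < T)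
    (h4 : n = tt k) : n ∈ WW i k₀ T := by
  unfold WW
  exact Finset.mem_image.2 ⟨k, Finset.mem_filter.2 ⟨Finset.mem_Ioo.2 ⟨h2, h3⟩, h1⟩, h4.symm⟩

private theorem ad_A {i k₀ T : ℕ} {Q c : ℝ} (hQ : 5 ≤ Q) (hc1 : 2 * c ≤ 1 / 2)
    (hQc : 1 / (Q - 1) ≤ c) (hk : 1 ≤ c * 16 ^ k₀) {A : Finset ℕ} (hA : Lc Q A)
    (hN : ∀ n ∈ A, tt (k₀ + 1) ≤ n) (hAw : Away i A) {n : ℕ} (hn : n ∈ A) :
    (sd (ee k₀ A) (UU i k₀ T A) n : ℝ) < 2 * c * n ∧ 2 * c * (n : ℝ) ≤ n / 2 := by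
  refine ⟨sd_A hQ hQc hk hA hN hAw hn, ?_⟩
  have h0 : (0 : ℝ) ≤ n := Nat.cast_nonneg n
  nlinarith

theorem adm {i k₀ T : ℕ} {Q c : ℝ} (hQ : 5 ≤ Q) (hQk : Q ≤ 16 ^ k₀) (hc1 : 2 * c ≤ 1 / 2)
    (hQc : 1 / (Q - 1) ≤ c) (hk : 1 ≤ c * 16 ^ k₀) {A : Finset ℕ} (hA : Lc Q A)
    (hN : ∀ n ∈ A, tt (k₀ + 1) ≤ n) (hAw : Away i A) {ε : ℕ → ℂ} (hε : ∀ n, ‖ε n‖ ≤ 1) :
    Adm (ee k₀ A) (cc k₀ A ε) (UU i k₀ T A) := by
  refine ⟨fun n hn => ?_, fun n hn => ?_, fun n hn => ?_, fun n hn => ?_, fun n hn z hz => ?_⟩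
  · rcases ad_cases hn with h | h | ⟨k, -, -, -, rfl⟩
    · exact h ▸ le_rfl
    · have h1 := hN n h
      have h2 := le_tt (k₀ + 1)
      omega
    · have h2 := le_tt k
      omega
  · unfold ee
    split_ifs
    · exact le_rfl
    · have h1 := tt_le_bd k₀
      have h2 := le_tt k₀
      omega
    · exact dg_pos _
  · unfold cc
    by_cases h1 : n ∈ A
    · rw [if_pos h1, if_pos rfl]
    · rw [if_neg h1, abs_zero, Int.cast_zero, zero_div, sub_zero]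
  · rcases ad_cases hn with h | h | h
    · rw [h, sd_one hN]
      norm_num
    · have h1 := ad_A (T := T) hQ hc1 hQc hk hA hN hAw h
      have h0 : 0 ≤ (sd (ee k₀ A) (UU i k₀ T A) n : ℝ) := Nat.cast_nonneg _
      have h2 : ((2 * sd (ee k₀ A) (UU i k₀ T A) n : ℕ) : ℝ) < n := by
        push_cast
        linarith [h1.1, h1.2]
      exact_mod_cast h2
    · obtain ⟨k, hk1, hk2, hk3, hk4⟩ := h
      have h1 := sd_W (T := T) hQ hQk hA hN hAw (ad_WW hk1 hk2 hk3 hk4)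
      omega
  · by_cases h : n ∈ A
    · exact fc_A hε h hz
    · exact fc_V h hz

theorem sep {i k₀ T : ℕ} {Q c : ℝ} (hQ : 5 ≤ Q) (hQk : Q ≤ 16 ^ k₀) (hc1 : 2 * c ≤ 1 / 2)
    (hQc : 1 / (Q - 1) ≤ c) (hk : 1 ≤ c * 16 ^ k₀) {A : Finset ℕ} (hA : Lc Q A)
    (hN : ∀ n ∈ A, tt (k₀ + 1) ≤ n) (hAw : Away i A) {m : ℕ} (hm : tt (k₀ + 1) ≤ m)
    (hmw : ∀ k, gr k = i → ¬ Near k m) (hmA : ∀ n ∈ A, n ≠ m → 2 * c * n ≤ |(m : ℝ) - n|) :
    ∀ n ∈ UU i k₀ T A, n ≠ m → ∀ a : ℤ, a ≠ 0 → |a| ≤ ee k₀ A n →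
      (sd (ee k₀ A) (UU i k₀ T A) n : ℤ) < |(m : ℤ) + a * n| := by
  intro n hn hnm a ha hae
  by_cases hnA : n ∈ A
  · have h1 := ad_A (T := T) hQ hc1 hQc hk hA hN hAw hnA
    have he : ee k₀ A n = 1 := by
      unfold ee
      rw [if_pos hnA]
    rw [he] at hae
    have ha2 : a = 1 ∨ a = -1 := by
      have h3 : |a| ≤ 1 := by exact_mod_cast hae
      rw [abs_le] at h3
      omega
    rcases ha2 with rfl | rfl
    · have h2 : (sd (ee k₀ A) (UU i k₀ T A) n : ℝ) < m + n := by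
        have h3 : (0 : ℝ) ≤ m := Nat.cast_nonneg m
        have h4 : (0 : ℝ) ≤ n := Nat.cast_nonneg n
        linarith [h1.1, h1.2]
      have h5 : (sd (ee k₀ A) (UU i k₀ T A) n : ℤ) < m + n := by exact_mod_cast h2
      refine lt_of_lt_of_le h5 ?_
      rw [one_mul]
      exact le_abs_self _
    · have h2 := hmA n hnA hnm
      have h3 : (sd (ee k₀ A) (UU i k₀ T A) n : ℝ) < |(m : ℝ) - n| := lt_of_lt_of_le h1.1 h2
      have h4 : |(m : ℝ) - n| = ((|(m : ℤ) + -1 * n| : ℤ) : ℝ) := by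
        push_cast
        congr 1
        ring
      rw [h4] at h3
      exact_mod_cast h3
  rcases ad_cases hn with h | h | h
  · subst h
    rw [sd_one hN]
    have he : ee k₀ A 1 = bd k₀ := by
      unfold ee
      rw [if_neg hnA, if_pos rfl]
    rw [he] at hae
    have h1 := bd_lt (Nat.lt_succ_self k₀)
    have h2 : bd k₀ < tt (k₀ + 1) := by
      have h3 : 2 ≤ 16 ^ (4 * (k₀ + 1) + 4) := by
        calc 2 ≤ 16 ^ 1 := by norm_num
          _ ≤ 16 ^ (4 * (k₀ + 1) + 4) := Nat.pow_le_pow_right (by norm_num) (by omega)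
      have h4 := tt_le_bd k₀
      have h5 := le_tt k₀
      have h6 : 2 * bd k₀ ≤ 16 ^ (4 * (k₀ + 1) + 4) * bd k₀ := Nat.mul_le_mul_right _ h3
      have h7 : 16 ^ (4 * (k₀ + 1) + 4) * bd k₀ ≤ tt (k₀ + 1) := h1
      omega
    have h3 : (bd k₀ : ℤ) < m := by exact_mod_cast h2.trans_le hm
    have h4 : -|a| ≤ a := neg_abs_le a
    refine lt_of_lt_of_le ?_ (le_abs_self _)
    push_cast
    linarith
  · exact absurd h hnA
  · obtain ⟨k, hk1, hk2, hk3, rfl⟩ := h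
    have h4 := sd_W (T := T) hQ hQk hA hN hAw (ad_WW hk1 hk2 hk3 rfl)
    have h16 : 16 ≤ 16 ^ k := by
      calc 16 = 16 ^ 1 := by norm_num
        _ ≤ 16 ^ k := Nat.pow_le_pow_right (by norm_num) (by omega)
    have htt := le_tt k
    have hdg := dg_pos k
    have he : ee k₀ A (tt k) = dg k := by
      unfold ee
      rw [if_neg hnA, if_neg (by omega), ix_tt]
    rw [he] at hae
    have hX : tt k ≤ tt k * dg k := Nat.le_mul_of_pos_right _ hdg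
    rcases not_near (hmw k hk1) with h5 | h5
    · have h6 : 16 * m ≤ 16 ^ k * m := Nat.mul_le_mul_right m h16
      have h7 : 16 * m < tt k := lt_of_le_of_lt h6 h5
      have h8 : 1 ≤ |a| := Int.one_le_abs ha
      have h9 : (tt k : ℤ) ≤ |a * (tt k : ℤ)| := by
        rw [abs_mul, Nat.abs_cast]
        nlinarith
      have h10 : |a * (tt k : ℤ)| ≤ |(m : ℤ) + a * tt k| + m := by
        have h11 : a * (tt k : ℤ) = ((m : ℤ) + a * tt k) - m := by ring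
        calc |a * (tt k : ℤ)| = |((m : ℤ) + a * tt k) - m| := by rw [← h11]
          _ ≤ |(m : ℤ) + a * tt k| + |(m : ℤ)| := abs_sub _ _
          _ = |(m : ℤ) + a * tt k| + m := by rw [Nat.abs_cast]
      omega
    · have h6 : 16 * (tt k * dg k) ≤ 16 ^ k * (tt k * dg k) := Nat.mul_le_mul_right _ h16
      have h7 : 16 * (tt k * dg k) < m := lt_of_le_of_lt h6 h5
      have h9 : |a * (tt k : ℤ)| ≤ ((tt k * dg k : ℕ) : ℤ) := by
        rw [abs_mul, Nat.abs_cast]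
        push_cast
        nlinarith
      have h10 : -(a * (tt k : ℤ)) ≤ |a * (tt k : ℤ)| := neg_le_abs _
      refine lt_of_lt_of_le ?_ (le_abs_self _)
      omega

end Forcing.HZ
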