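import Pool.Agent.Lib.MP_c80ac4_an.HZ.GB

/-!
# Row GC: the product is a probability density; mean squares

`gp_nonneg`: product of `h.nn`. `gI_neg` as `Forcing.UN.rI_neg`, `int_norm_gp` as
`Forcing.RZ.int_rp_norm` and `gI_zero`. `bad_int`: on the circle
`‖z^n - 1‖² = 2 - z^n - z^(-n)`, so the integral is `2 gI 0 - gI n - gI (-n)`, `gI n = c n (-1)` by
`gI_self`, which is real.
-/

namespace Forcing.HZ

open Complex Metric Set MeasureTheory Filter Topology Forcing.RZ Forcing.UN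

variable {e : ℕ → ℕ} {c : ℕ → ℤ → ℂ} {U : Finset ℕ}

theorem gp_nonneg (h : Adm e c U) {z : ℂ} (hz : ‖z‖ = 1) : ∃ t : ℝ, 0 ≤ t ∧ gp e c U z = t := by
  refine ⟨∏ n ∈ U, ‖fc e c n z‖, Finset.prod_nonneg fun n _ => norm_nonneg _, ?_⟩
  unfold gp
  push_cast
  refine Finset.prod_congr rfl fun n hn => ?_
  obtain ⟨t, ht, hf⟩ := h.nn n hn z hz
  rw [hf, Complex.norm_real, Real.norm_of_nonneg ht]

private theorem conj_circle {z : ℂ} (hz : ‖z‖ = 1) : (starRingEnd ℂ) z = z⁻¹ := by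
  rw [Complex.inv_def, Complex.normSq_eq_norm_sq, hz]
  simp

theorem gI_neg (h : Adm e c U) (m : ℤ) : gI e c U (-m) = (starRingEnd ℂ) (gI e c U m) := by
  unfold gI
  rw [← integral_conj]
  refine integral_congr_ae ?_
  filter_upwards [haar_norm] with z hz
  obtain ⟨t, -, ht⟩ := gp_nonneg h hz
  rw [map_mul, map_zpow₀, conj_circle hz, ht, Complex.conj_ofReal, zpow_neg, inv_zpow]

theorem int_norm_gp (h : Adm e c U) : ∫ z, ‖gp e c U z‖ ∂haar = 1 := by
  have h1 : ((∫ z, ‖gp e c U z‖ ∂haar : ℝ) : ℂ) = gI e c U 0 := by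
    rw [← integral_complex_ofReal]
    unfold gI
    refine integral_congr_ae ?_
    filter_upwards [haar_norm] with z hz
    obtain ⟨t, ht, hg⟩ := gp_nonneg h hz
    rw [zpow_zero, one_mul, hg, Complex.norm_real, Real.norm_of_nonneg ht]
  rw [gI_zero h] at h1
  exact_mod_cast h1

theorem norm_gI_le (h : Adm e c U) (m : ℤ) : ‖gI e c U m‖ ≤ 1 := by
  rw [← int_norm_gp h]
  unfold gI
  refine (norm_integral_le_integral_norm _).trans (le_of_eq ?_)
  refine integral_congr_ae ?_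
  filter_upwards [haar_norm] with z hz
  rw [norm_mul, norm_zpow, hz, one_zpow, one_mul]

theorem bad_int (h : Adm e c U) {n : ℕ} (hn : n ∈ U)
    (hc : c n (-1) = 1 - 1 / ((e n : ℂ) + 1)) :
    ∫ z, ‖z ^ n - 1‖ ^ 2 * ‖gp e c U z‖ ∂haar = 2 / ((e n : ℝ) + 1) := by
  have hI : ∀ m : ℤ, Integrable (fun z => z ^ m * gp e c U z) haar := by
    intro m
    have h0 := int_gp e c U (f := fun _ => (1 : ℂ)) continuous_const m
    simpa using h0
  have h1 : ((∫ z, ‖z ^ n - 1‖ ^ 2 * ‖gp e c U z‖ ∂haar : ℝ) : ℂ) =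
      2 * gI e c U 0 - gI e c U n - gI e c U (-n) := by
    have h2 : 2 * gI e c U 0 - gI e c U n - gI e c U (-n) =
        ∫ z, (2 * (z ^ (0 : ℤ) * gp e c U z) - z ^ (n : ℤ) * gp e c U z -
          z ^ (-(n : ℤ)) * gp e c U z) ∂haar := by
      have hA : Integrable (fun z => 2 * (z ^ (0 : ℤ) * gp e c U z)) haar := (hI 0).const_mul 2
      have hB : Integrable (fun z => 2 * (z ^ (0 : ℤ) * gp e c U z) - z ^ (n : ℤ) * gp e c U z)
          haar := hA.sub (hI n)
      unfold gI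
      rw [integral_sub hB (hI (-n)), integral_sub hA (hI n), integral_const_mul]
    rw [h2, ← integral_complex_ofReal]
    refine integral_congr_ae ?_
    filter_upwards [haar_norm] with z hz
    obtain ⟨t, ht, hg⟩ := gp_nonneg h hz
    have hz0 : z ≠ 0 := by
      intro h0
      rw [h0, norm_zero] at hz
      exact one_ne_zero hz.symm
    have hw : z ^ n ≠ 0 := pow_ne_zero _ hz0
    have h3 : ((‖z ^ n - 1‖ ^ 2 : ℝ) : ℂ) = (z ^ n - 1) * ((z ^ n)⁻¹ - 1) := by
      rw [← inv_pow, ← conj_circle hz, ← map_pow, ← map_one (starRingEnd ℂ), ← map_sub,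
        map_one, Complex.mul_conj']
      push_cast
      rfl
    rw [Complex.ofReal_mul, h3, hg, Complex.norm_real, Real.norm_of_nonneg ht, zpow_zero,
      zpow_natCast, zpow_neg, zpow_natCast]
    field_simp
    ring
  rw [gI_zero h, gI_neg h, gI_self h hn, hc] at h1
  have h4 : ((∫ z, ‖z ^ n - 1‖ ^ 2 * ‖gp e c U z‖ ∂haar : ℝ) : ℂ) =
      ((2 / ((e n : ℝ) + 1) : ℝ) : ℂ) := by
    rw [h1]
    push_cast
    rw [map_sub, map_one, map_div₀, map_one, map_add, map_one, Complex.conj_natCast]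
    ring
  exact_mod_cast h4

end Forcing.HZ
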