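import Pool.Agent.Lib.MP_c80ac4_an.HZ.Tt
import Pool.Agent.Lib.MP_c80ac4_an.HZ.GC

/-!
# Row KEY: the integral of `f` against the product

PROOF. Integrate `pointwise` against `‖gp‖` (`haar_norm`, `int_norm`): `∫ ‖gp‖ = 1` (`int_norm_gp`),
and by `bad_int` with `n = 1` (`ee 1 = bd k₀`, since `1 ∉ A`) and `n = tt k` (`ee (tt k) = dg k` by
`ix_tt`, since `tt k ∉ A` as it is near itself, and `tt k ≠ 1`; `cc n (-1) = 1 - 1/(ee n + 1)`):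
`tt k₀^(2 k₀ + 2) * 2 / (bd k₀ + 1) ≤ (1/2)^k₀`, `tt k^(2k) * 2 / (dg k + 1) ≤ (1/2)^k`, and the sum
of `(1/2)^k` over `k > k₀` is at most `(1/2)^k₀` (`geom_le` of UN/Cutoff.lean, `Ico (k₀+1) T`).
-/

namespace Forcing.HZ

open Complex Metric Set MeasureTheory Filter Topology Forcing.RZ Forcing.UN

private theorem key_cc {k₀ : ℕ} {A : Finset ℕ} {ε : ℕ → ℂ} {n : ℕ} (hn : n ∉ A) :
    cc k₀ A ε n (-1) = 1 - 1 / ((ee k₀ A n : ℂ) + 1) := by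
  unfold cc
  rw [if_neg hn]
  simp

private theorem key_frac (a m : ℕ) : (a : ℝ) * (2 / (((2 ^ (m + 1) * a : ℕ) : ℝ) + 1)) ≤ (1 / 2) ^ m := by
  have h1 : (0 : ℝ) < ((2 ^ (m + 1) * a : ℕ) : ℝ) + 1 := by positivity
  rw [mul_div_assoc', div_le_iff₀ h1]
  push_cast
  have h2 : (1 / 2 : ℝ) ^ m * (2 ^ (m + 1) * a) = a * 2 := by
    rw [pow_succ, ← mul_assoc, ← mul_assoc, ← mul_pow]
    norm_num
    ring
  have h3 : (0 : ℝ) ≤ (1 / 2) ^ m := by positivity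
  nlinarith

theorem key_int {i k₀ T : ℕ} (hi : i ≤ k₀) {f : ℂ → ℂ} (hf : Continuous f) {M S : ℝ}
    (hM0 : 0 ≤ M) (hS0 : 0 ≤ S)
    (hT : ∀ z : ℂ, ‖z‖ = 1 → ‖z - 1‖ ≤ (1 / 2 : ℝ) ^ i →
      (∀ k < T, gr k = i → ‖z ^ tt k - 1‖ ≤ 1 / (tt k : ℝ) ^ k) → ‖f z‖ ≤ M)
    (hS : ∀ z : ℂ, ‖z‖ = 1 → ‖f z‖ ≤ S) {A : Finset ℕ} (hN : ∀ n ∈ A, tt (k₀ + 1) ≤ n)
    (hAw : Away i A) {ε : ℕ → ℂ} (hadm : Adm (ee k₀ A) (cc k₀ A ε) (UU i k₀ T A)) :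
    ∫ z, ‖f z‖ * ‖gp (ee k₀ A) (cc k₀ A ε) (UU i k₀ T A) z‖ ∂haar ≤ M + 2 * (1 / 2) ^ k₀ * S := by
  classical
  set F : Finset ℕ := (Finset.Ioo k₀ T).filter (fun k => gr k = i) with hF
  set g : ℂ → ℂ := gp (ee k₀ A) (cc k₀ A ε) (UU i k₀ T A) with hg
  have h1A : (1 : ℕ) ∉ A := fun h => by
    have h2 := hN 1 h
    have h3 := le_tt (k₀ + 1)
    omega
  have hkA : ∀ k ∈ F, tt k ∉ A := fun k hk h =>
    hAw _ h k (Finset.mem_filter.1 hk).2 (near_self k)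
  have hkU : ∀ k ∈ F, tt k ∈ UU i k₀ T A := by
    intro k hk
    unfold UU WW
    exact Finset.mem_insert_of_mem (Finset.mem_union_right _ (Finset.mem_image_of_mem _ hk))
  have h1U : (1 : ℕ) ∈ UU i k₀ T A := Finset.mem_insert_self _ _
  have he1 : ee k₀ A 1 = bd k₀ := by
    unfold ee
    rw [if_neg h1A, if_pos rfl]
  have hek : ∀ k ∈ F, ee k₀ A (tt k) = dg k := by
    intro k hk
    unfold ee
    rw [if_neg (hkA k hk), if_neg (by have := le_tt k; omega), ix_tt]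
  have hI1 : ∫ z, ‖z ^ 1 - 1‖ ^ 2 * ‖g z‖ ∂haar = 2 / ((bd k₀ : ℝ) + 1) := by
    rw [← he1]
    exact bad_int hadm h1U (key_cc h1A)
  have hIk : ∀ k ∈ F, ∫ z, ‖z ^ tt k - 1‖ ^ 2 * ‖g z‖ ∂haar = 2 / ((dg k : ℝ) + 1) := by
    intro k hk
    rw [← hek k hk]
    exact bad_int hadm (hkU k hk) (key_cc (hkA k hk))
  have hone : ∫ z, ‖g z‖ ∂haar = 1 := int_norm_gp hadm
  have hi0 : Integrable (fun z => ‖f z‖ * ‖g z‖) haar := int_norm _ _ _ hf.norm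
  have hi1 : Integrable (fun z => ‖g z‖) haar := by
    have := int_norm (ee k₀ A) (cc k₀ A ε) (UU i k₀ T A) (f := fun _ => 1) continuous_const
    simpa using this
  have hi2 : ∀ n : ℕ, Integrable (fun z => ‖z ^ n - 1‖ ^ 2 * ‖g z‖) haar := fun n =>
    int_norm _ _ _ (by fun_prop)
  have hi3 : Integrable (fun z => ∑ k ∈ F, (tt k : ℝ) ^ (2 * k) * (‖z ^ tt k - 1‖ ^ 2 * ‖g z‖)) haar :=
    integrable_finsetSum _ fun k _ => (hi2 _).const_mul _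
  have hi4 : Integrable (fun z => (tt k₀ : ℝ) ^ (2 * k₀ + 2) * (‖z ^ 1 - 1‖ ^ 2 * ‖g z‖)) haar :=
    (hi2 1).const_mul _
  have hi6 : Integrable (fun z => S * ((tt k₀ : ℝ) ^ (2 * k₀ + 2) * (‖z ^ 1 - 1‖ ^ 2 * ‖g z‖) +
      ∑ k ∈ F, (tt k : ℝ) ^ (2 * k) * (‖z ^ tt k - 1‖ ^ 2 * ‖g z‖))) haar :=
    (hi4.add hi3).const_mul _
  have h5 : ∫ z, ‖f z‖ * ‖g z‖ ∂haar ≤ ∫ z, (M * ‖g z‖ +
      S * ((tt k₀ : ℝ) ^ (2 * k₀ + 2) * (‖z ^ 1 - 1‖ ^ 2 * ‖g z‖) +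
        ∑ k ∈ F, (tt k : ℝ) ^ (2 * k) * (‖z ^ tt k - 1‖ ^ 2 * ‖g z‖))) ∂haar := by
    refine integral_mono_ae hi0 ((hi1.const_mul _).add hi6) ?_
    filter_upwards [haar_norm] with z hz
    have h6 := pointwise hi hM0 hS0 hT hz (hS z hz)
    have h7 := mul_le_mul_of_nonneg_right h6 (norm_nonneg (g z))
    refine h7.trans (le_of_eq ?_)
    rw [add_mul, mul_assoc S, add_mul, Finset.sum_mul]
    simp only [mul_assoc, hF]
  refine h5.trans ?_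
  rw [integral_add (hi1.const_mul _) hi6, integral_const_mul,
    integral_const_mul, hone, integral_add hi4 hi3, integral_const_mul, hI1,
    integral_finsetSum _ fun k _ => (hi2 _).const_mul _]
  have h8 : (tt k₀ : ℝ) ^ (2 * k₀ + 2) * (2 / ((bd k₀ : ℝ) + 1)) ≤ (1 / 2) ^ k₀ := by
    have := key_frac (tt k₀ ^ (2 * k₀ + 2)) k₀
    unfold bd
    push_cast at this ⊢
    exact this
  have h9 : ∑ k ∈ F, ∫ z, (tt k : ℝ) ^ (2 * k) * (‖z ^ tt k - 1‖ ^ 2 * ‖g z‖) ∂haar ≤ (1 / 2) ^ k₀ := by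
    calc ∑ k ∈ F, ∫ z, (tt k : ℝ) ^ (2 * k) * (‖z ^ tt k - 1‖ ^ 2 * ‖g z‖) ∂haar
        ≤ ∑ k ∈ F, (1 / 2 : ℝ) ^ k := by
          refine Finset.sum_le_sum fun k hk => ?_
          rw [integral_const_mul, hIk k hk]
          have := key_frac (tt k ^ (2 * k)) k
          unfold dg
          push_cast at this ⊢
          exact this
      _ ≤ ∑ k ∈ Finset.Ico (k₀ + 1) T, (1 / 2 : ℝ) ^ k := by
          refine Finset.sum_le_sum_of_subset_of_nonneg (fun k hk => ?_) fun _ _ _ => by positivity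
          have := Finset.mem_Ioo.1 (Finset.mem_filter.1 hk).1
          rw [Finset.mem_Ico]
          omega
      _ ≤ 2 * (1 / 2) ^ (k₀ + 1) := geom_le _ _
      _ = (1 / 2 : ℝ) ^ k₀ := by ring
  have h10 := mul_le_mul_of_nonneg_left (add_le_add h8 h9) hS0
  linarith

end Forcing.HZ
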