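import Pool.Agent.Lib.MP_c80ac4_an.HZ.Ad
import Pool.Agent.Lib.MP_c80ac4_an.HZ.Key

/-!
# Row CM: one class of frequencies, for one group (as `class_fin`, UN/Cls.lean, with exact integrals)

PROOF. `k₀ ≥ i` with `2 (1/2)^k₀ ≤ κ`, `Q ≤ 16^k₀`, `1 ≤ c 16^k₀`; `N = tt (k₀+1)`. Given `s`, `b`,
`M`, `A`, `δ > 0`: `exists_T` gives `T`; `ε n = conj (b n) / ‖b n‖`, `adm`. For `m ∈ s`, not in
`nr i s`: `gI m = if m ∈ A then ε m / 2 else 0` by `gI_main`, `sep` (`hmA` by `RZ.sep` and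
`2 c ≤ 1 - 1/q`; `m ∈ UU` iff `m ∈ A`: `m ≠ 1`, and `m = tt k` would be near `k`). For `m ∈ nr i s`:
`m ∉ A` and `‖gI m‖ ≤ 1` (`norm_gI_le`). So `∫ f gp = ∑ m ∈ s, b m * gI m` differs from
`(1/2) ∑ m ∈ A, ‖b m‖` by at most `∑ m ∈ nr i s, ‖b m‖`, and it is at most
`(M + δ) + 2 (1/2)^k₀ S` in modulus (`key_int`). Then `δ → 0`.
-/

namespace Forcing.HZ

open Complex Metric Set MeasureTheory Filter Topology Forcing.RZ Forcing.UN

theorem class_main (i : ℕ) {q Q c κ : ℝ} (hq : 1 < q) (hQ : 5 ≤ Q) (hc0 : 0 < c)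
    (hc1 : 2 * c ≤ 1 / 2) (hcq : 2 * c ≤ 1 - 1 / q) (hQc : 1 / (Q - 1) ≤ c) (hκ : 0 < κ) :
    ∃ N : ℕ, 1 ≤ N ∧ ∀ (s : Finset ℕ) (b : ℕ → ℂ) (M : ℝ), LacSet q N (s : Set ℕ) → 0 ≤ M →
      (∀ z ∈ Ei i, ‖∑ n ∈ s, b n * z ^ n‖ ≤ M) → ∀ A ⊆ s, Lc Q A → Away i A →
      1 / 2 * ∑ n ∈ A, ‖b n‖ ≤ M + κ * ∑ n ∈ s, ‖b n‖ + ∑ n ∈ nr i s, ‖b n‖ := by
  obtain ⟨K₁, hK₁⟩ : ∃ J : ℕ, (1 / 2 : ℝ) ^ J < κ / 2 :=
    exists_pow_lt_of_lt_one (by positivity) (by norm_num)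
  obtain ⟨K₂, hK₂⟩ := pow_unbounded_of_one_lt Q (by norm_num : (1 : ℝ) < 16)
  obtain ⟨K₃, hK₃⟩ := pow_unbounded_of_one_lt (1 / c) (by norm_num : (1 : ℝ) < 16)
  obtain ⟨k₀, hk₀⟩ : ∃ k₀ : ℕ, k₀ = max (max i K₁) (max K₂ K₃) := ⟨_, rfl⟩
  have hi0 : i ≤ k₀ := by
    rw [hk₀]
    exact (le_max_left _ _).trans (le_max_left _ _)
  have h10 : K₁ ≤ k₀ := by
    rw [hk₀]
    exact (le_max_right _ _).trans (le_max_left _ _)
  have h20 : K₂ ≤ k₀ := by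
    rw [hk₀]
    exact (le_max_left _ _).trans (le_max_right _ _)
  have h30 : K₃ ≤ k₀ := by
    rw [hk₀]
    exact (le_max_right _ _).trans (le_max_right _ _)
  have hκ2 : 2 * (1 / 2 : ℝ) ^ k₀ ≤ κ := by
    have h1 : (1 / 2 : ℝ) ^ k₀ ≤ (1 / 2 : ℝ) ^ K₁ :=
      pow_le_pow_of_le_one (by norm_num) (by norm_num) h10
    linarith
  have hQk : Q ≤ 16 ^ k₀ := hK₂.le.trans (pow_le_pow_right₀ (by norm_num) h20)
  have hk : 1 ≤ c * 16 ^ k₀ := by
    have h1 : 1 / c ≤ (16 : ℝ) ^ k₀ := hK₃.le.trans (pow_le_pow_right₀ (by norm_num) h30)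
    have h2 := mul_le_mul_of_nonneg_left h1 hc0.le
    have h3 : c * (1 / c) = 1 := by field_simp
    linarith
  have hN16 : 16 ≤ tt (k₀ + 1) := le_tt _
  refine ⟨tt (k₀ + 1), by omega, fun s b M hs hM0 hM A hAs hA hAw => ?_⟩
  set S := ∑ n ∈ s, ‖b n‖ with hS
  have hS0 : 0 ≤ S := Finset.sum_nonneg fun _ _ => norm_nonneg _
  set f : ℂ → ℂ := fun z => ∑ n ∈ s, b n * z ^ n with hf
  have hfc : Continuous f := by
    simp only [hf]
    fun_prop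
  have hfS : ∀ z : ℂ, ‖z‖ = 1 → ‖f z‖ ≤ S := by
    intro z hz
    refine (norm_sum_le _ _).trans (le_of_eq ?_)
    refine Finset.sum_congr rfl fun n _ => ?_
    rw [norm_mul, norm_pow, hz, one_pow, mul_one]
  refine le_of_forall_pos_le_add fun δ hδ => ?_
  obtain ⟨T, hT⟩ := exists_T hfc hδ hM
  obtain ⟨ε, hεd⟩ : ∃ ε : ℕ → ℂ, ε = fun n => (starRingEnd ℂ) (b n) / ‖b n‖ := ⟨_, rfl⟩
  have hε : ∀ n, ‖ε n‖ ≤ 1 := by
    intro n
    rw [hεd]
    simp only [norm_div, RCLike.norm_conj, Complex.norm_real, norm_norm]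
    exact div_self_le_one _
  have hbε : ∀ n, b n * (ε n / 2) = ((‖b n‖ / 2 : ℝ) : ℂ) := by
    intro n
    by_cases hn : b n = 0
    · simp [hn]
    have h0 : (‖b n‖ : ℂ) ≠ 0 := by exact_mod_cast (norm_ne_zero_iff.mpr hn)
    have h1 : b n * (starRingEnd ℂ) (b n) = (‖b n‖ : ℂ) ^ 2 := by
      rw [Complex.mul_conj, Complex.normSq_eq_norm_sq]; push_cast; rfl
    rw [hεd]
    push_cast
    have h2 : b n * ((starRingEnd ℂ) (b n) / (‖b n‖ : ℂ) / 2) =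
      (b n * (starRingEnd ℂ) (b n)) / (‖b n‖ : ℂ) / 2 := by ring
    show b n * ((starRingEnd ℂ) (b n) / (‖b n‖ : ℂ) / 2) = _
    rw [h2, h1]
    field_simp
  have hNs : ∀ n ∈ s, tt (k₀ + 1) ≤ n := fun n hn => (hs.1 n hn).2
  have hNA : ∀ n ∈ A, tt (k₀ + 1) ≤ n := fun n hn => hNs n (hAs hn)
  have hadm : Adm (ee k₀ A) (cc k₀ A ε) (UU i k₀ T A) :=
    adm hQ hQk hc1 hQc hk hA hNA hAw hε
  have hkey := key_int hi0 hfc (by positivity : 0 ≤ M + δ) hS0 hT hfS hNA hAw hadm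
  -- the coefficients
  have hmain : ∀ m ∈ s, m ∉ nr i s →
      gI (ee k₀ A) (cc k₀ A ε) (UU i k₀ T A) m = if m ∈ A then ε m / 2 else 0 := by
    intro m hm hmR
    have hmw : ∀ l, gr l = i → ¬ Near l m := fun l hl hn => hmR (mem_nr.2 ⟨hm, l, hl, hn⟩)
    have hm16 : tt (k₀ + 1) ≤ m := hNs m hm
    have h1 := gI_main hadm (m := m) (by omega)
      (Forcing.HZ.sep hQ hQk hc1 hQc hk hA hNA hAw hm16 hmw fun n hn hne => by
        have hn0 : (0 : ℝ) ≤ n := Nat.cast_nonneg n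
        have h2 := Forcing.RZ.sep hq (m := m) (n := n) (fun hlt => hs.2 m hm n (hAs hn) hlt)
          (fun hlt => hs.2 n (hAs hn) m hm hlt) hne
        have h3 := mul_le_mul_of_nonneg_right hcq hn0
        linarith)
    rw [h1]
    have hiff : m ∈ UU i k₀ T A ↔ m ∈ A := by
      unfold UU
      rw [Finset.mem_insert, Finset.mem_union]
      constructor
      · rintro (h | h | h)
        · omega
        · exact h
        · unfold WW at h
          obtain ⟨l, hl, rfl⟩ := Finset.mem_image.1 h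
          exact absurd (near_self l) (hmw l (Finset.mem_filter.1 hl).2)
      · exact fun h => Or.inr (Or.inl h)
    by_cases h : m ∈ A
    · rw [if_pos h, if_pos (hiff.2 h)]
      unfold cc
      rw [if_pos h, if_neg (by norm_num), if_pos rfl]
    · rw [if_neg h, if_neg (fun h' => h (hiff.1 h'))]
  have hint : ∫ z, (∑ n ∈ s, b n * z ^ n) * gp (ee k₀ A) (cc k₀ A ε) (UU i k₀ T A) z ∂haar =
      ∑ n ∈ s, b n * gI (ee k₀ A) (cc k₀ A ε) (UU i k₀ T A) n := by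
    unfold gI
    simp_rw [Finset.sum_mul]
    rw [integral_finsetSum]
    · refine Finset.sum_congr rfl fun n _ => ?_
      rw [← integral_const_mul]
      congr 1
      ext z
      rw [zpow_natCast]
      ring
    · intro n _
      have := int_gp (ee k₀ A) (cc k₀ A ε) (UU i k₀ T A)
        (continuous_const : Continuous fun _ : ℂ => b n) n
      refine this.congr (Eventually.of_forall fun z => ?_)
      simp only [zpow_natCast]
      ring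
  have hY : ∑ n ∈ s, b n * (if n ∈ A then ε n / 2 else 0) =
      ((1 / 2 * ∑ n ∈ A, ‖b n‖ : ℝ) : ℂ) := by
    rw [← Finset.sum_subset hAs (fun n _ hn => by rw [if_neg hn, mul_zero]), Finset.mul_sum,
      Complex.ofReal_sum]
    refine Finset.sum_congr rfl fun n hn => ?_
    rw [if_pos hn, hbε n]
    congr 1
    ring
  have hRs : nr i s ⊆ s := fun n hn => (mem_nr.1 hn).1
  have hXY : ‖∑ n ∈ s, b n * gI (ee k₀ A) (cc k₀ A ε) (UU i k₀ T A) n -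
      ∑ n ∈ s, b n * (if n ∈ A then ε n / 2 else 0)‖ ≤ ∑ n ∈ nr i s, ‖b n‖ := by
    classical
    have hR2 : ∑ n ∈ nr i s, ‖b n‖ = ∑ n ∈ s, if n ∈ nr i s then ‖b n‖ else 0 := by
      rw [← Finset.sum_subset hRs (fun n _ hn => by rw [if_neg hn])]
      exact Finset.sum_congr rfl fun n hn => by rw [if_pos hn]
    rw [← Finset.sum_sub_distrib, hR2]
    refine (norm_sum_le _ _).trans (Finset.sum_le_sum fun n hn => ?_)
    rw [← mul_sub, norm_mul]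
    have hb0 := norm_nonneg (b n)
    by_cases hnR : n ∈ nr i s
    · have hnA : n ∉ A := fun h => by
        obtain ⟨-, l, hl, hnl⟩ := mem_nr.1 hnR
        exact hAw n h l hl hnl
      rw [if_neg hnA, sub_zero, if_pos hnR]
      have h4 := mul_le_mul_of_nonneg_left (norm_gI_le hadm (n : ℤ)) hb0
      linarith
    · rw [if_neg hnR, hmain n hn hnR, sub_self, norm_zero, mul_zero]
  have hX : ‖∫ z, (∑ n ∈ s, b n * z ^ n) * gp (ee k₀ A) (cc k₀ A ε) (UU i k₀ T A) z ∂haar‖ ≤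
      M + δ + 2 * (1 / 2) ^ k₀ * S := by
    refine (norm_integral_le_integral_norm _).trans (le_trans (le_of_eq ?_) hkey)
    congr 1
    ext z
    rw [norm_mul]
  have h5 : (0 : ℝ) ≤ 1 / 2 * ∑ n ∈ A, ‖b n‖ :=
    mul_nonneg (by norm_num) (Finset.sum_nonneg fun _ _ => norm_nonneg _)
  have h6 : 1 / 2 * ∑ n ∈ A, ‖b n‖ = ‖∑ n ∈ s, b n * (if n ∈ A then ε n / 2 else 0)‖ := by
    rw [hY, Complex.norm_real, Real.norm_of_nonneg h5]
  rw [h6]
  rw [hint] at hX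
  have h7 := mul_le_mul_of_nonneg_right hκ2 hS0
  set X := ∑ n ∈ s, b n * gI (ee k₀ A) (cc k₀ A ε) (UU i k₀ T A) n
  set Y := ∑ n ∈ s, b n * (if n ∈ A then ε n / 2 else 0)
  calc ‖Y‖ = ‖X - (X - Y)‖ := by congr 1; ring
    _ ≤ ‖X‖ + ‖X - Y‖ := norm_sub_le _ _
    _ ≤ (M + δ + 2 * (1 / 2) ^ k₀ * S) + ∑ n ∈ nr i s, ‖b n‖ := add_le_add hX hXY
    _ ≤ _ := by linarith

end Forcing.HZ
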