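import Pool.Agent.Lib.MP_c80ac4_an.HZ.Defs

/-!
# Row CLO: the set is a closed subset of the circle (as RJ/Clo.lean)

PROOF. Each `Ei i` is closed. `1 ∈ Ei i`. `EH` is the intersection over `n` of the closed sets
`({1} ∪ (sphere 0 1 ∩ closedBall 1 ((1/2)^n))) ∪ ⋃ i < n, Ei i`.
-/

namespace Forcing.HZ

open Complex Metric Set MeasureTheory Filter Topology Forcing.RZ Forcing.UN

theorem isClosed_Ei (i : ℕ) : IsClosed (Ei i) := by
  have h : Ei i = {z : ℂ | ‖z‖ = 1} ∩ ({z : ℂ | ‖z - 1‖ ≤ (1 / 2 : ℝ) ^ i} ∩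
      ⋂ k, ⋂ (_ : gr k = i), {z : ℂ | ‖z ^ tt k - 1‖ ≤ 1 / (tt k : ℝ) ^ k}) := by
    ext z
    simp only [Ei, mem_ofPred_eq, mem_inter_iff, mem_iInter]
  rw [h]
  refine (isClosed_eq continuous_norm continuous_const).inter ((isClosed_le (by fun_prop)
    continuous_const).inter (isClosed_iInter fun k => isClosed_iInter fun _ =>
    isClosed_le (by fun_prop) continuous_const))

private theorem one_mem (i : ℕ) : (1 : ℂ) ∈ Ei i := by
  refine ⟨by simp, by simp, fun k _ => ?_⟩
  rw [one_pow, sub_self, norm_zero]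
  positivity

theorem isClosed_EH : IsClosed EH := by
  have h : EH = ⋂ n : ℕ, (({1} ∪ (sphere (0 : ℂ) 1 ∩ closedBall 1 ((1 / 2 : ℝ) ^ n))) ∪
      ⋃ i ∈ Finset.range n, Ei i) := by
    apply Subset.antisymm
    · intro z hz
      obtain ⟨i, hi⟩ := mem_iUnion.1 hz
      refine mem_iInter.2 fun n => ?_
      by_cases hin : i < n
      · exact Or.inr (mem_iUnion₂.2 ⟨i, Finset.mem_range.2 hin, hi⟩)
      · refine Or.inl (Or.inr ⟨by simpa using hi.1, ?_⟩)
        rw [mem_closedBall, dist_eq_norm]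
        exact hi.2.1.trans (pow_le_pow_of_le_one (by norm_num) (by norm_num) (not_lt.1 hin))
    · intro z hz
      by_cases h1 : z = 1
      · rw [h1]
        exact mem_iUnion.2 ⟨0, one_mem 0⟩
      · have h2 : 0 < ‖z - 1‖ := norm_pos_iff.2 (sub_ne_zero.2 h1)
        obtain ⟨n, hn⟩ := exists_pow_lt_of_lt_one h2 (by norm_num : (1 / 2 : ℝ) < 1)
        rcases mem_iInter.1 hz n with (h3 | h3) | h3
        · exact absurd h3 h1
        · have h4 := h3.2
          rw [mem_closedBall, dist_eq_norm] at h4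
          exact absurd hn (not_lt.2 h4)
        · obtain ⟨i, -, hi⟩ := mem_iUnion₂.1 h3
          exact mem_iUnion.2 ⟨i, hi⟩
  rw [h]
  refine isClosed_iInter fun n => ?_
  refine (isClosed_singleton.union (isClosed_sphere.inter isClosed_closedBall)).union ?_
  exact isClosed_biUnion_finset fun i _ => isClosed_Ei i

theorem EH_subset : EH ⊆ sphere 0 1 := by
  intro z hz
  obtain ⟨i, hi⟩ := mem_iUnion.1 hz
  simpa using hi.1

end Forcing.HZ
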