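import Pool.Agent.Lib.MP_c80ac4_an.HZ.Defs

/-!
# Row COV: covering by balls around roots of unity

PROOF. `z = exp(i θ)`, `z^t = exp(i t θ)`; `t θ = 2 π m + φ`, `m` an integer, `|φ| ≤ π`
(`m = round (t θ / (2 π))`), and `|φ| ≤ (π/2) ‖exp(i φ) - 1‖ ≤ 2 δ`
(`‖exp(i φ) - 1‖ = 2 |sin(φ/2)|`, Jordan `Real.mul_le_sin`). The root of unity
`exp(2 π i m / t)` is one of the `ex (2 π x / t)`, `x < t` (reduce `m` mod `t`), and
`‖z - exp(2 π i m/t)‖ ≤ |φ| / t` (`norm_ex_sub_one_le`).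
-/

namespace Forcing.HZ

open Complex Metric Set MeasureTheory Filter Topology Forcing.RZ Forcing.UN

private theorem abs_le_two_mul {φ : ℝ} (h : |φ| ≤ Real.pi) : |φ| ≤ 2 * ‖ex φ - 1‖ := by
  have hpi := Real.pi_pos
  have hpi4 := Real.pi_lt_four
  have h1 : ‖ex φ - 1‖ = 2 * |Real.sin (φ / 2)| := by
    unfold ex
    rw [mul_comm, Complex.norm_exp_I_mul_ofReal_sub_one, Real.norm_eq_abs, abs_mul]
    norm_num
  have h2 : |Real.sin (φ / 2)| = Real.sin (|φ| / 2) := by
    have h3 : |φ / 2| = |φ| / 2 := by rw [abs_div]; norm_num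
    rw [Real.abs_sin_eq_sin_abs_of_abs_le_pi (by rw [h3]; linarith), h3]
  have h3 : 2 / Real.pi * (|φ| / 2) ≤ Real.sin (|φ| / 2) :=
    Real.mul_le_sin (by positivity) (by linarith)
  rw [h1, h2]
  have h4 : 2 / Real.pi * (|φ| / 2) = |φ| / Real.pi := by ring
  rw [h4] at h3
  have h5 : |φ| / 4 ≤ |φ| / Real.pi := by
    gcongr
  linarith

private theorem ex_int (m : ℤ) : ex (2 * Real.pi * m) = 1 := by
  unfold ex
  rw [← Complex.exp_int_mul_two_pi_mul_I m]
  congr 1
  push_cast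
  ring

private theorem ex_add_int (s : ℝ) (m : ℤ) : ex (s + 2 * Real.pi * m) = ex s := by
  rw [ex_add, ex_int, mul_one]

theorem cover {t : ℕ} (ht : 1 ≤ t) {δ : ℝ} (hδ : 0 ≤ δ) :
    {z : ℂ | ‖z‖ = 1 ∧ ‖z ^ t - 1‖ ≤ δ} ⊆
      ⋃ x : Fin t, closedBall (ex (2 * Real.pi * (x : ℕ) / t)) (2 * δ / t) := by
  rintro z ⟨hz, hd⟩
  have hpi := Real.pi_pos
  have ht0 : (0 : ℝ) < t := by exact_mod_cast ht
  have htz : (0 : ℤ) < t := by exact_mod_cast ht
  have hzt : z = ex (arg z) := by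
    unfold ex
    have := Complex.norm_mul_exp_arg_mul_I z
    rw [hz, ofReal_one, one_mul] at this
    exact this.symm
  set θ := arg z with hθ
  have hpow : z ^ t = ex (t * θ) := by
    rw [hzt]
    unfold ex
    rw [← Complex.exp_nat_mul]
    congr 1
    push_cast
    ring
  set m : ℤ := round (t * θ / (2 * Real.pi)) with hm
  set φ : ℝ := t * θ - 2 * Real.pi * m with hφ
  have h1 : |φ| ≤ Real.pi := by
    have h2 := abs_sub_round (t * θ / (2 * Real.pi))
    rw [← hm] at h2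
    have h3 : φ = 2 * Real.pi * (t * θ / (2 * Real.pi) - m) := by
      rw [hφ]
      field_simp
    rw [h3, abs_mul, abs_of_pos (by positivity : 0 < 2 * Real.pi)]
    nlinarith
  have h2 : ex φ = z ^ t := by
    rw [hpow, ← ex_add_int φ m]
    congr 1
    rw [hφ]
    ring
  have h3 : |φ| ≤ 2 * δ := by
    refine (abs_le_two_mul h1).trans ?_
    rw [h2]
    linarith
  have hx0 : 0 ≤ m % t := Int.emod_nonneg _ htz.ne'
  have hx1 : m % t < t := Int.emod_lt_of_pos _ htz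
  have hxt : (m % t).toNat < t := by omega
  rw [mem_iUnion]
  refine ⟨⟨(m % t).toNat, hxt⟩, ?_⟩
  have h4 : ex (2 * Real.pi * ((m % t).toNat : ℕ) / t) = ex (2 * Real.pi * m / t) := by
    have h5 : (((m % t).toNat : ℕ) : ℝ) = m - t * ((m / t : ℤ) : ℝ) := by
      have h6 : (((m % t).toNat : ℕ) : ℤ) = m - t * (m / t) := by
        rw [Int.toNat_of_nonneg hx0]
        have := Int.emod_add_mul_ediv m t
        linarith
      exact_mod_cast h6
    rw [← ex_add_int (2 * Real.pi * ((m % t).toNat : ℕ) / t) (m / t), h5]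
    congr 1
    field_simp
    ring
  rw [mem_closedBall, dist_eq_norm]
  simp only
  rw [h4]
  have h5 : z - ex (2 * Real.pi * m / t) = ex (2 * Real.pi * m / t) * (ex (φ / t) - 1) := by
    rw [mul_sub, ← ex_add, mul_one, hzt]
    congr 2
    rw [hφ]
    field_simp
    ring
  rw [h5, norm_mul, norm_ex, one_mul]
  refine (norm_ex_sub_one_le _).trans ?_
  rw [abs_div, abs_of_pos ht0]
  gcongr

end Forcing.HZ
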