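import Pool.Agent.Lib.MP_c80ac4_an.UN.Cutoff

/-! # A boundary set of Hausdorff dimension zero: definitions -/

namespace Forcing.HZ

open Complex Metric Set MeasureTheory Filter Topology Forcing.RZ Forcing.UN

/-- the frequencies -/
def tt : ℕ → ℕ
  | 0 => 16
  | k + 1 => 16 ^ (5 * k + 10) * tt k ^ (2 * k + 2)

/-- the degree of the kernel of the frequency number `k` -/
def dg (k : ℕ) : ℕ := 2 ^ (k + 1) * tt k ^ (2 * k)

/-- the degree of the base kernel below the frequency number `k + 1` -/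
def bd (k : ℕ) : ℕ := 2 ^ (k + 1) * tt k ^ (2 * k + 2)

/-- the group of the index `k` -/
def gr (k : ℕ) : ℕ := (Nat.unpair k).1

/-- `n` is in the zone of the frequency number `k` -/
def Near (k n : ℕ) : Prop := tt k ≤ 16 ^ k * n ∧ n ≤ 16 ^ k * (tt k * dg k)

/-- no element of `A` is in a zone of the group `i` -/
def Away (i : ℕ) (A : Finset ℕ) : Prop := ∀ n ∈ A, ∀ k, gr k = i → ¬ Near k n

/-- `Q`-lacunary -/
def Lc (Q : ℝ) (A : Finset ℕ) : Prop := ∀ m ∈ A, ∀ n ∈ A, m < n → Q * m ≤ n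

open Classical in
/-- the elements of `s` in the zones of the group `i` -/
noncomputable def nr (i : ℕ) (s : Finset ℕ) : Finset ℕ :=
  s.filter fun n => ∃ k, gr k = i ∧ Near k n

theorem mem_nr {i : ℕ} {s : Finset ℕ} {n : ℕ} :
    n ∈ nr i s ↔ n ∈ s ∧ ∃ k, gr k = i ∧ Near k n := by
  unfold nr
  simp

/-- the part number `i` of the set -/
def Ei (i : ℕ) : Set ℂ := {z | ‖z‖ = 1 ∧ ‖z - 1‖ ≤ (1 / 2 : ℝ) ^ i ∧
  ∀ k, gr k = i → ‖z ^ tt k - 1‖ ≤ 1 / (tt k : ℝ) ^ k}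

/-- the set -/
def EH : Set ℂ := ⋃ i, Ei i

/-- the factor with frequency `n`, degree `e n` and coefficients `c n` -/
noncomputable def fc (e : ℕ → ℕ) (c : ℕ → ℤ → ℂ) (n : ℕ) (z : ℂ) : ℂ :=
  ∑ a ∈ Finset.Icc (-(e n : ℤ)) (e n), c n a * z ^ (a * (n : ℤ))

/-- the product of the factors with frequencies in `U` -/
noncomputable def gp (e : ℕ → ℕ) (c : ℕ → ℤ → ℂ) (U : Finset ℕ) (z : ℂ) : ℂ :=
  ∏ n ∈ U, fc e c n z

/-- its Fourier coefficients -/
noncomputable def gI (e : ℕ → ℕ) (c : ℕ → ℤ → ℂ) (U : Finset ℕ) (m : ℤ) : ℂ :=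
  ∫ z, z ^ m * gp e c U z ∂haar

/-- the degree of the product of the factors below `n` -/
def sd (e : ℕ → ℕ) (U : Finset ℕ) (n : ℕ) : ℕ := ∑ k ∈ U.filter (· < n), e k * k

/-- normalised nonnegative factors with separated spectra -/
structure Adm (e : ℕ → ℕ) (c : ℕ → ℤ → ℂ) (U : Finset ℕ) : Prop where
  pos : ∀ n ∈ U, 1 ≤ n
  deg : ∀ n ∈ U, 1 ≤ e n
  one : ∀ n ∈ U, c n 0 = 1
  gap : ∀ n ∈ U, 2 * sd e U n < n
  nn : ∀ n ∈ U, ∀ z : ℂ, ‖z‖ = 1 → ∃ t : ℝ, 0 ≤ t ∧ fc e c n z = t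

/-- the index of a frequency -/
noncomputable def ix : ℕ → ℕ := Function.invFun tt

/-- the degrees: Riesz factors on `A`, the base kernel at `1`, kernels at the frequencies `tt k` -/
noncomputable def ee (k₀ : ℕ) (A : Finset ℕ) (n : ℕ) : ℕ :=
  if n ∈ A then 1 else if n = 1 then bd k₀ else dg (ix n)

/-- the coefficients -/
noncomputable def cc (k₀ : ℕ) (A : Finset ℕ) (ε : ℕ → ℂ) (n : ℕ) (a : ℤ) : ℂ :=
  if n ∈ A then (if a = 0 then 1 else if a = -1 then ε n / 2 else (starRingEnd ℂ) (ε n) / 2)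
  else 1 - (|a| : ℤ) / ((ee k₀ A n : ℂ) + 1)

/-- the frequencies of the group `i` with indices between `k₀` and `T` -/
def WW (i k₀ T : ℕ) : Finset ℕ := ((Finset.Ioo k₀ T).filter fun k => gr k = i).image tt

/-- all frequencies -/
def UU (i k₀ T : ℕ) (A : Finset ℕ) : Finset ℕ := insert 1 (A ∪ WW i k₀ T)

end Forcing.HZ
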