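import Pool.Agent.Lib.MP_c80ac4_an.HZ.Defs

/-!
# Row NUM: arithmetic of the frequencies

`tt (k+1) = 16^(5k+10) tt k^(2k+2)`, `bd k = 2^(k+1) tt k^(2k+2)`, `dg k = 2^(k+1) tt k^(2k)`.
`bd_lt`: for `l = k + 1` because `16^(k+2) ≥ 2^(k+1)`; induction on `l`:
`tt (l+1) ≥ 16^(4l+8) bd l ≥ 16^(4l+8) tt l ≥ 16^(4l+8) bd k` (`bd l ≥ tt l`).
`near_unique`: for `k < l`: `tt l ≤ 16^l n ≤ 16^(l+k) (tt k * dg k) ≤ 16^(2l) bd k < tt l`.
`pow_mono`: `tt k ≤ tt l`, `1 ≤ tt l`.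
-/

namespace Forcing.HZ

private theorem num_succ (k : ℕ) : tt (k + 1) = 16 ^ (5 * k + 10) * tt k ^ (2 * k + 2) := rfl

theorem le_tt (k : ℕ) : 16 ≤ tt k := by
  induction k with
  | zero => exact le_rfl
  | succ k ih =>
    rw [num_succ]
    have h1 : 16 ^ 1 ≤ 16 ^ (5 * k + 10) := Nat.pow_le_pow_right (by norm_num) (by omega)
    have h2 : 1 ≤ tt k ^ (2 * k + 2) := Nat.one_le_pow _ _ (by omega)
    calc 16 = 16 ^ 1 * 1 := by norm_num
      _ ≤ 16 ^ (5 * k + 10) * tt k ^ (2 * k + 2) := Nat.mul_le_mul h1 h2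

theorem self_le_tt (k : ℕ) : k ≤ tt k := by
  cases k with
  | zero => exact Nat.zero_le _
  | succ k =>
    rw [num_succ]
    have h1 : 5 * k + 10 < 16 ^ (5 * k + 10) := Nat.lt_pow_self (by norm_num)
    have h2 : 1 ≤ tt k ^ (2 * k + 2) := Nat.one_le_pow _ _ (by have := le_tt k; omega)
    have h3 : 16 ^ (5 * k + 10) * 1 ≤ 16 ^ (5 * k + 10) * tt k ^ (2 * k + 2) := Nat.mul_le_mul_left _ h2
    omega

theorem tt_le_bd (k : ℕ) : tt k ≤ bd k := by
  unfold bd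
  have h0 : 0 < tt k := by have := le_tt k; omega
  have h1 : 1 ≤ 2 ^ (k + 1) := Nat.one_le_pow _ _ (by norm_num)
  have h2 : tt k ^ 1 ≤ tt k ^ (2 * k + 2) := Nat.pow_le_pow_right h0 (by omega)
  calc tt k = 1 * tt k ^ 1 := by ring
    _ ≤ 2 ^ (k + 1) * tt k ^ (2 * k + 2) := Nat.mul_le_mul h1 h2

theorem mul_dg_le (k : ℕ) : tt k * dg k ≤ bd k := by
  unfold bd dg
  have h0 : 0 < tt k := by have := le_tt k; omega
  have h2 : tt k ^ (2 * k + 1) ≤ tt k ^ (2 * k + 2) := Nat.pow_le_pow_right h0 (by omega)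
  calc tt k * (2 ^ (k + 1) * tt k ^ (2 * k)) = 2 ^ (k + 1) * tt k ^ (2 * k + 1) := by ring
    _ ≤ 2 ^ (k + 1) * tt k ^ (2 * k + 2) := Nat.mul_le_mul_left _ h2

theorem dg_pos (k : ℕ) : 1 ≤ dg k := by
  unfold dg
  have h0 : 0 < tt k := by have := le_tt k; omega
  exact Nat.mul_pos (Nat.pow_pos (by norm_num)) (Nat.pow_pos h0)

private theorem num_bd_pos (k : ℕ) : 1 ≤ bd k := by
  have h1 := tt_le_bd k
  have h2 := le_tt k
  omega

private theorem num_step (k : ℕ) : 16 ^ (4 * (k + 1) + 4) * bd k ≤ tt (k + 1) := by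
  rw [num_succ]
  unfold bd
  have h1 : 2 ^ (k + 1) ≤ 16 ^ (k + 2) :=
    (Nat.pow_le_pow_left (by norm_num) (k + 1)).trans (Nat.pow_le_pow_right (by norm_num) (by omega))
  calc 16 ^ (4 * (k + 1) + 4) * (2 ^ (k + 1) * tt k ^ (2 * k + 2))
      ≤ 16 ^ (4 * (k + 1) + 4) * (16 ^ (k + 2) * tt k ^ (2 * k + 2)) :=
        Nat.mul_le_mul_left _ (Nat.mul_le_mul_right _ h1)
    _ = 16 ^ (5 * k + 10) * tt k ^ (2 * k + 2) := by
        rw [← mul_assoc, ← pow_add]
        congr 2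
        ring

theorem bd_lt {k l : ℕ} (h : k < l) : 16 ^ (4 * l + 4) * bd k ≤ tt l := by
  induction l with
  | zero => omega
  | succ l ih =>
    rcases Nat.lt_succ_iff_lt_or_eq.1 h with h1 | h1
    · have h2 := ih h1
      have h3 : bd k ≤ 16 ^ (4 * l + 4) * bd k := Nat.le_mul_of_pos_left _ (Nat.pow_pos (by norm_num))
      have h4 : bd k ≤ bd l := h3.trans (h2.trans (tt_le_bd l))
      exact (Nat.mul_le_mul_left _ h4).trans (num_step l)
    · rw [h1]
      exact num_step l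

theorem tt_strictMono : StrictMono tt := by
  refine strictMono_nat_of_lt_succ fun k => ?_
  have h1 := num_step k
  have h2 := tt_le_bd k
  have h3 := num_bd_pos k
  have h4 : 16 ^ 1 ≤ 16 ^ (4 * (k + 1) + 4) := Nat.pow_le_pow_right (by norm_num) (by omega)
  have h5 : 16 ^ 1 * bd k ≤ 16 ^ (4 * (k + 1) + 4) * bd k := Nat.mul_le_mul_right _ h4
  omega

theorem ix_tt (k : ℕ) : ix (tt k) = k :=
  Function.leftInverse_invFun tt_strictMono.injective k

theorem near_self (k : ℕ) : Near k (tt k) := by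
  have h : 1 ≤ 16 ^ k := Nat.one_le_pow _ _ (by norm_num)
  have h2 : tt k ≤ tt k * dg k := Nat.le_mul_of_pos_right _ (dg_pos k)
  exact ⟨Nat.le_mul_of_pos_left _ h, h2.trans (Nat.le_mul_of_pos_left _ h)⟩

private theorem num_near {k l n : ℕ} (h : k < l) (h1 : Near k n) (h2 : Near l n) : False := by
  have h3 : tt l ≤ 16 ^ (2 * l) * bd k := by
    calc tt l ≤ 16 ^ l * n := h2.1
      _ ≤ 16 ^ l * (16 ^ k * (tt k * dg k)) := Nat.mul_le_mul_left _ h1.2
      _ ≤ 16 ^ l * (16 ^ l * bd k) :=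
        Nat.mul_le_mul_left _ (Nat.mul_le_mul (Nat.pow_le_pow_right (by norm_num) h.le) (mul_dg_le k))
      _ = 16 ^ (2 * l) * bd k := by
        rw [← mul_assoc, ← pow_add]
        congr 2
        ring
  have h4 := bd_lt h
  have h5 : 16 ^ (2 * l) < 16 ^ (4 * l + 4) := Nat.pow_lt_pow_right (by norm_num) (by omega)
  have h6 : 16 ^ (2 * l) * bd k < 16 ^ (4 * l + 4) * bd k := Nat.mul_lt_mul_of_pos_right h5 (num_bd_pos k)
  omega

theorem near_unique {k l n : ℕ} (h1 : Near k n) (h2 : Near l n) : k = l := by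
  rcases lt_trichotomy k l with h | h | h
  · exact (num_near h h1 h2).elim
  · exact h
  · exact (num_near h h2 h1).elim

theorem pow_mono {k l : ℕ} (h : k ≤ l) : tt k ^ (k + 1) ≤ tt l ^ (l + 1) := by
  have h0 : 0 < tt l := by have := le_tt l; omega
  exact (Nat.pow_le_pow_left (tt_strictMono.monotone h) (k + 1)).trans (Nat.pow_le_pow_right h0 (by omega))

/-- outside the zone of `k` -/
theorem not_near {k n : ℕ} (h : ¬ Near k n) :
    16 ^ k * n < tt k ∨ 16 ^ k * (tt k * dg k) < n := by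
  unfold Near at h
  rcases not_and_or.1 h with h | h
  · exact Or.inl (not_le.1 h)
  · exact Or.inr (not_le.1 h)

end Forcing.HZ
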