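import Pool.Agent.Lib.MP_c80ac4_an.HZ.Cov
import Pool.Agent.Lib.MP_c80ac4_an.HZ.Num

/-!
# Row DIM: the Hausdorff dimension is zero

PROOF. Let `r > 0`. `Ei i` is covered, for every `k = Nat.pair i n` (`gr k = i`, `k ≥ n`), by
`tt k` balls of radius `2 / tt k^(k+1)` (`cover`), of diameter `≤ 4 / tt k^(k+1)`. So by
`MeasureTheory.Measure.hausdorffMeasure_le_liminf_sum` (index `n`, `Fin (tt k)`)
`μH[r] (Ei i) ≤ liminf tt k * (4 / tt k^(k+1))^r`, and
`tt k * (4 / tt k^(k+1))^r ≤ 4^r tt k^(1 - r (k+1)) → 0` (`≤ 4^r 16^(1 - r(k+1))` as soon as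
`r (k+1) ≥ 1`). So `μH[r] (Ei i) = 0 ≠ ⊤`, `dimH (Ei i) ≤ r` (`dimH_le_of_hausdorffMeasure_ne_top`) for
all `r > 0`, and `dimH_iUnion`.
-/

namespace Forcing.HZ

open Complex Metric Set MeasureTheory Filter Topology Forcing.RZ Forcing.UN

open scoped ENNReal NNReal

private theorem dim_cov (i n : ℕ) : Ei i ⊆ ⋃ x : Fin (tt (Nat.pair i n)),
    closedBall (ex (2 * Real.pi * (x : ℕ) / tt (Nat.pair i n)))
      (2 * (1 / (tt (Nat.pair i n) : ℝ) ^ (Nat.pair i n)) / tt (Nat.pair i n)) := by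
  intro z hz
  have hg : gr (Nat.pair i n) = i := by
    unfold gr
    rw [Nat.unpair_pair]
  exact cover (t := tt (Nat.pair i n)) (by have := le_tt (Nat.pair i n); omega)
    (δ := 1 / (tt (Nat.pair i n) : ℝ) ^ (Nat.pair i n)) (by positivity) ⟨hz.1, hz.2.2 _ hg⟩

private theorem dim_diam (t k : ℕ) (ht : 1 ≤ t) (z : ℂ) :
    Metric.ediam (closedBall z (2 * (1 / (t : ℝ) ^ k) / t)) ≤ ENNReal.ofReal (4 / (t : ℝ) ^ (k + 1)) := by
  refine Metric.ediam_le_of_forall_dist_le fun x hx y hy => ?_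
  have h1 := dist_triangle_right x y z
  rw [mem_closedBall] at hx hy
  have ht0 : (0 : ℝ) < t := by exact_mod_cast ht
  have e : 4 / (t : ℝ) ^ (k + 1) = 2 * (1 / (t : ℝ) ^ k) / t + 2 * (1 / (t : ℝ) ^ k) / t := by
    rw [pow_succ]
    field_simp
    norm_num
  rw [e]
  linarith

private theorem dim_Ei_le (i : ℕ) (r : ℝ≥0) (hr : 0 < r) : dimH (Ei i) ≤ r := by
  have hr0 : (0 : ℝ) < r := by exact_mod_cast hr
  apply dimH_le_of_hausdorffMeasure_ne_top
  have hlim : Tendsto (fun n : ℕ => ENNReal.ofReal (4 / (tt (Nat.pair i n) : ℝ) ^ (Nat.pair i n + 1))) atTop (𝓝 0) := by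
    have h1 : Tendsto (fun n : ℕ => 4 * (1 / 16 : ℝ) ^ n) atTop (𝓝 0) := by
      have := (tendsto_pow_atTop_nhds_zero_of_lt_one (r := (1 / 16 : ℝ)) (by norm_num) (by norm_num)).const_mul 4
      simpa using this
    have h2 : Tendsto (fun n : ℕ => 4 / (tt (Nat.pair i n) : ℝ) ^ (Nat.pair i n + 1)) atTop (𝓝 0) := by
      refine squeeze_zero (fun n => by positivity) (fun n => ?_) h1
      have h3 : (16 : ℝ) ≤ tt (Nat.pair i n) := by exact_mod_cast le_tt _
      have h4 : n ≤ Nat.pair i n + 1 := (Nat.right_le_pair i n).trans (Nat.le_succ _)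
      have h5 : (16 : ℝ) ^ n ≤ (tt (Nat.pair i n) : ℝ) ^ (Nat.pair i n + 1) :=
        (pow_le_pow_right₀ (by norm_num) h4).trans (pow_le_pow_left₀ (by norm_num) h3 _)
      have e : (4 : ℝ) * (1 / 16) ^ n = 4 / 16 ^ n := by
        rw [one_div, inv_pow]
        rfl
      rw [e]
      exact div_le_div_of_nonneg_left (by norm_num) (by positivity) h5
    have := ENNReal.tendsto_ofReal h2
    simpa using this
  have hle := Measure.hausdorffMeasure_le_liminf_sum (r : ℝ) (Ei i) (l := atTop)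
    (fun n : ℕ => ENNReal.ofReal (4 / (tt (Nat.pair i n) : ℝ) ^ (Nat.pair i n + 1))) hlim
    (fun n (x : Fin (tt (Nat.pair i n))) => closedBall (ex (2 * Real.pi * (x : ℕ) / tt (Nat.pair i n)))
      (2 * (1 / (tt (Nat.pair i n) : ℝ) ^ (Nat.pair i n)) / tt (Nat.pair i n)))
    (Eventually.of_forall fun n x => dim_diam _ _ (by have := le_tt (Nat.pair i n); omega) _)
    (Eventually.of_forall fun n => dim_cov i n)
  have hev : ∀ᶠ n : ℕ in atTop, ∑ x : Fin (tt (Nat.pair i n)),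
      Metric.ediam (closedBall (ex (2 * Real.pi * (x : ℕ) / tt (Nat.pair i n)))
        (2 * (1 / (tt (Nat.pair i n) : ℝ) ^ (Nat.pair i n)) / tt (Nat.pair i n))) ^ (r : ℝ) ≤ ENNReal.ofReal (4 ^ (r : ℝ)) := by
    obtain ⟨m, hm⟩ := exists_nat_ge (1 / (r : ℝ))
    filter_upwards [eventually_ge_atTop m] with n hn
    obtain ⟨k, hk⟩ : ∃ k, k = Nat.pair i n := ⟨_, rfl⟩
    obtain ⟨t, ht⟩ : ∃ t, t = tt k := ⟨_, rfl⟩
    rw [← hk, ← ht]
    have hkn : n ≤ k := hk ▸ Nat.right_le_pair i n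
    have ht16 : (16 : ℝ) ≤ t := by
      rw [ht]
      exact_mod_cast le_tt k
    have ht1 : 1 ≤ t := by
      have : (1 : ℝ) ≤ t := by linarith
      exact_mod_cast this
    have ht0 : (0 : ℝ) < t := by linarith
    have h1 : ∀ x ∈ (Finset.univ : Finset (Fin t)),
        Metric.ediam (closedBall (ex (2 * Real.pi * (x : ℕ) / t)) (2 * (1 / (t : ℝ) ^ k) / t)) ^ (r : ℝ) ≤
          ENNReal.ofReal (4 / (t : ℝ) ^ (k + 1)) ^ (r : ℝ) := fun x _ =>
      ENNReal.rpow_le_rpow (dim_diam t k ht1 _) hr0.le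
    refine (Finset.sum_le_card_nsmul _ _ _ h1).trans ?_
    rw [Finset.card_univ, Fintype.card_fin, nsmul_eq_mul, ENNReal.ofReal_rpow_of_nonneg (by positivity) hr0.le,
      ← ENNReal.ofReal_natCast, ← ENNReal.ofReal_mul (by positivity)]
    apply ENNReal.ofReal_le_ofReal
    rw [Real.div_rpow (by norm_num) (by positivity), ← Real.rpow_natCast, ← Real.rpow_mul ht0.le]
    have h2 : (1 : ℝ) ≤ ((k + 1 : ℕ) : ℝ) * r := by
      have h3 : 1 / (r : ℝ) ≤ ((k + 1 : ℕ) : ℝ) := by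
        refine hm.trans ?_
        exact_mod_cast (hn.trans hkn).trans (Nat.le_succ k)
      rwa [div_le_iff₀ hr0] at h3
    have h4 : (t : ℝ) ≤ (t : ℝ) ^ (((k + 1 : ℕ) : ℝ) * r) := by
      calc (t : ℝ) = (t : ℝ) ^ (1 : ℝ) := (Real.rpow_one _).symm
        _ ≤ _ := Real.rpow_le_rpow_of_exponent_le (by linarith) h2
    have h5 : 0 < (t : ℝ) ^ (((k + 1 : ℕ) : ℝ) * r) := by positivity
    rw [mul_div_assoc', div_le_iff₀ h5, mul_comm]
    exact mul_le_mul_of_nonneg_left h4 (by positivity)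
  have h2 := hle.trans (liminf_le_liminf hev)
  rw [liminf_const] at h2
  exact ne_top_of_le_ne_top ENNReal.ofReal_ne_top h2

theorem dim_Ei (i : ℕ) : dimH (Ei i) = 0 := by
  by_contra h
  have h1 : 0 < dimH (Ei i) := pos_iff_ne_zero.2 h
  obtain ⟨r, hr0, hr⟩ := ENNReal.lt_iff_exists_nnreal_btwn.1 h1
  have hr0' : 0 < r := by exact_mod_cast hr0
  exact absurd (dim_Ei_le i r hr0') (not_le.2 hr)

theorem dim_EH : dimH EH = 0 := by
  unfold EH
  rw [dimH_iUnion]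
  simp [dim_Ei]

end Forcing.HZ
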