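import Pool.Agent.Lib.MP_c80ac4_an.HZ.CM

/-!
# Row FIN: the Sidon inequalities (as RJ/Pg.lean, RJ/Fin.lean)

`exists_group`: the sets `nr i s` are disjoint subsets of `s` (`near_unique`).
`sidon_EH`: `c = min ((1 - 1/q)/2) (1/4)`, `Q = 5 + 1/c`, `Q ≤ q^L`, `κ = 1/(16 (L+1))`,
`G = 32 (L+1)`, `N` = maximum of the `N` of `class_main` for `i < G`. Given `s`, `b`, `M`:
`i < G` with `∑ nr i s ≤ S / G`; for the classes `A_r = {n ∈ s \ nr i s | cls q (L+1) n = r}`: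
`(1/2) ∑ A_r ≤ M + κ S + S / G`; sum over `r < L + 1`:
`(1/2) (S - S/G) ≤ (L+1) M + S/16 + S/32`, so `S ≤ 3 (L+1) M`.
-/

namespace Forcing.HZ

open Complex Metric Set MeasureTheory Filter Topology Forcing.RZ Forcing.UN

theorem exists_group {G : ℕ} (hG : 0 < G) (s : Finset ℕ) (b : ℕ → ℂ) :
    ∃ i < G, ∑ n ∈ nr i s, ‖b n‖ ≤ 1 / (G : ℝ) * ∑ n ∈ s, ‖b n‖ := by
  have hG' : (G : ℝ) ≠ 0 := by exact_mod_cast hG.ne'
  have hdis : Set.PairwiseDisjoint (↑(Finset.range G) : Set ℕ) (fun i => nr i s) := by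
    intro i _ j _ hij
    refine Finset.disjoint_left.2 fun n hn hn' => hij ?_
    obtain ⟨-, k, hk, hk'⟩ := mem_nr.1 hn
    obtain ⟨-, l, hl, hl'⟩ := mem_nr.1 hn'
    rw [← hk, ← hl, near_unique hk' hl']
  have h1 : ∑ i ∈ Finset.range G, ∑ n ∈ nr i s, ‖b n‖ ≤
      ∑ i ∈ Finset.range G, 1 / (G : ℝ) * ∑ n ∈ s, ‖b n‖ := by
    rw [← Finset.sum_biUnion hdis, Finset.sum_const, Finset.card_range, nsmul_eq_mul,
      ← mul_assoc, mul_one_div, div_self hG', one_mul]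
    refine Finset.sum_le_sum_of_subset_of_nonneg (fun n hn => ?_) fun _ _ _ => norm_nonneg _
    obtain ⟨i, -, hi⟩ := Finset.mem_biUnion.1 hn
    exact (mem_nr.1 hi).1
  obtain ⟨i, hi, h2⟩ := Finset.exists_le_of_sum_le ⟨0, Finset.mem_range.2 hG⟩ h1
  exact ⟨i, Finset.mem_range.1 hi, h2⟩

theorem sidon_EH : SidonOn EH := by
  classical
  intro q hq
  have hq0 : 0 < q := by linarith
  have hqi : 1 / q < 1 := by rw [div_lt_one hq0]; exact hq
  set c : ℝ := min ((1 - 1 / q) / 2) (1 / 4) with hc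
  have hc0 : 0 < c := lt_min (by linarith) (by norm_num)
  have hc1 : 2 * c ≤ 1 / 2 := by
    have := min_le_right ((1 - 1 / q) / 2) (1 / 4 : ℝ)
    linarith
  have hcq : 2 * c ≤ 1 - 1 / q := by
    have := min_le_left ((1 - 1 / q) / 2) (1 / 4 : ℝ)
    linarith
  set Q : ℝ := 5 + 1 / c with hQ
  have hic : 0 < 1 / c := by positivity
  have hQ5 : 5 ≤ Q := by rw [hQ]; linarith
  have hQc : 1 / (Q - 1) ≤ c := by
    rw [div_le_iff₀ (by linarith)]
    calc (1 : ℝ) = c * (1 / c) := by field_simp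
      _ ≤ c * (Q - 1) := by
          gcongr
          rw [hQ]
          linarith
  obtain ⟨L, hL⟩ := pow_unbounded_of_one_lt Q hq
  have hL0 : (0 : ℝ) ≤ L := Nat.cast_nonneg L
  set κ : ℝ := 1 / (16 * (L + 1)) with hκd
  have hκ0 : 0 < κ := by positivity
  have hcm := fun i : ℕ => class_main i hq hQ5 hc0 hc1 hcq hQc hκ0
  choose Nf _ hNf using hcm
  set G : ℕ := 32 * (L + 1) with hG
  have hG0 : 0 < G := by omega
  refine ⟨(Finset.range G).sup Nf, 3 * (L + 1), fun s b M hs hM0 hM => ?_⟩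
  set S := ∑ n ∈ s, ‖b n‖ with hS
  have hS0 : 0 ≤ S := Finset.sum_nonneg fun _ _ => norm_nonneg _
  obtain ⟨i, hiG, hi⟩ := exists_group hG0 s b
  rw [← hS] at hi
  have hGr : (1 : ℝ) / (G : ℝ) = 1 / (32 * (L + 1)) := by
    rw [hG]
    push_cast
    ring
  rw [hGr] at hi
  have hnr : nr i s ⊆ s := fun n hn => (mem_nr.1 hn).1
  have hclass : ∀ r ∈ Finset.range (L + 1),
      1 / 2 * ∑ n ∈ s \ nr i s with cls q (L + 1) n = r, ‖b n‖ ≤
      M + κ * S + 1 / (32 * (L + 1)) * S := by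
    intro r _
    have hsub : (s \ nr i s).filter (fun n => cls q (L + 1) n = r) ⊆ s :=
      (Finset.filter_subset _ _).trans Finset.sdiff_subset
    have h1 := hNf i s b M (hs.mono (Finset.le_sup (f := Nf) (Finset.mem_range.2 hiG)) le_rfl) hM0
      (fun z hz => hM z (Set.mem_iUnion.2 ⟨i, hz⟩))
      ((s \ nr i s).filter (fun n => cls q (L + 1) n = r)) hsub
      (fun m hm n hn hmn => cls_gap hq hL.le (hs.1 m (hsub hm)).1
        (hs.2 m (hsub hm) n (hsub hn) hmn)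
        (((Finset.mem_filter.1 hm).2).trans ((Finset.mem_filter.1 hn).2).symm))
      (fun n hn k hk1 hk2 => (Finset.mem_sdiff.1 (Finset.mem_filter.1 hn).1).2
        (mem_nr.2 ⟨hsub hn, k, hk1, hk2⟩))
    linarith
  have hsum : ∑ n ∈ s \ nr i s, ‖b n‖ =
      ∑ r ∈ Finset.range (L + 1), ∑ n ∈ s \ nr i s with cls q (L + 1) n = r, ‖b n‖ := by
    rw [Finset.sum_fiberwise_of_maps_to]
    intro n _
    rw [Finset.mem_range]
    exact Nat.mod_lt _ (Nat.succ_pos L)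
  have hsplit : ∑ n ∈ s \ nr i s, ‖b n‖ + ∑ n ∈ nr i s, ‖b n‖ = S := Finset.sum_sdiff hnr
  have hfin : 1 / 2 * ∑ n ∈ s \ nr i s, ‖b n‖ ≤
      (L + 1) * (M + κ * S + 1 / (32 * (L + 1)) * S) := by
    rw [hsum, Finset.mul_sum]
    refine (Finset.sum_le_sum hclass).trans ?_
    rw [Finset.sum_const, Finset.card_range, nsmul_eq_mul]
    push_cast
    exact le_rfl
  have h5 : ((L : ℝ) + 1) * (M + κ * S + 1 / (32 * (L + 1)) * S) =
      (L + 1) * M + 3 * S / 32 := by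
    rw [hκd]
    field_simp
    ring
  rw [h5] at hfin
  have h6 : 1 / (32 * ((L : ℝ) + 1)) * S ≤ 1 / 32 * S := by
    refine mul_le_mul_of_nonneg_right ?_ hS0
    exact one_div_le_one_div_of_le (by norm_num) (by linarith)
  have h7 : S ≤ 64 / 25 * ((L + 1) * M) := by linarith
  have h8 : 0 ≤ ((L : ℝ) + 1) * M := by positivity
  linarith

end Forcing.HZ
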