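import Pool.Agent.Lib.MP_c80ac4_an.HZ.Defs

/-!
# Row GA: products of trigonometric factors, basic properties

As `Forcing.RZ` (RieszA.lean: `meas_rp`, `norm_rp_le`, `int_rp`, `rI_insert`).
`gI_insert`: `z^m * fc n z = ∑ a, c n a * z^(m + a n)` on the circle (`z ≠ 0`, `zpow_add₀`), and the
integral of a finite sum. `gI_out`: induction on `U` (`Finset.induction_on`): `|m + a n| > ∑ U` if
`|m| > ∑ U + e n * n`, `|a| ≤ e n`; for `U = ∅` the integral is `∫ z^m`, which is zero for `m ≠ 0`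
(`haar_zero`; conjugate for negative `m`).
-/

namespace Forcing.HZ

open Complex Metric Set MeasureTheory Filter Topology Forcing.RZ Forcing.UN

theorem meas_gp (e : ℕ → ℕ) (c : ℕ → ℤ → ℂ) (U : Finset ℕ) : Measurable (gp e c U) := by
  unfold gp fc
  refine Finset.measurable_prod _ fun n _ => ?_
  refine Finset.measurable_sum _ fun a _ => ?_
  exact (meas_zpow _).const_mul _

theorem exists_bound (e : ℕ → ℕ) (c : ℕ → ℤ → ℂ) (U : Finset ℕ) :
    ∃ B : ℝ, 0 ≤ B ∧ ∀ z : ℂ, ‖z‖ = 1 → ‖gp e c U z‖ ≤ B := by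
  refine ⟨∏ n ∈ U, ∑ a ∈ Finset.Icc (-(e n : ℤ)) (e n), ‖c n a‖, by positivity, ?_⟩
  intro z hz
  unfold gp
  rw [norm_prod]
  refine Finset.prod_le_prod (fun n _ => norm_nonneg _) fun n _ => ?_
  unfold fc
  refine (norm_sum_le _ _).trans (le_of_eq (Finset.sum_congr rfl fun a _ => ?_))
  rw [norm_mul, norm_zpow, hz, one_zpow, mul_one]

theorem int_gp (e : ℕ → ℕ) (c : ℕ → ℤ → ℂ) (U : Finset ℕ) {f : ℂ → ℂ} (hf : Continuous f)
    (m : ℤ) : Integrable (fun z => f z * (z ^ m * gp e c U z)) haar := by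
  obtain ⟨B, hB0, hB⟩ := exists_bound e c U
  obtain ⟨K, hK⟩ := (isCompact_sphere (0 : ℂ) 1).exists_bound_of_continuousOn hf.continuousOn
  refine Integrable.of_bound (hf.measurable.mul ((meas_zpow m).mul (meas_gp e c U))).aestronglyMeasurable
    (K * B) ?_
  filter_upwards [haar_norm] with z hz
  have h1 : ‖f z‖ ≤ K := hK z (by simpa using hz)
  rw [norm_mul, norm_mul, norm_zpow, hz, one_zpow, one_mul]
  exact mul_le_mul h1 (hB z hz) (norm_nonneg _) ((norm_nonneg _).trans h1)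

theorem int_norm (e : ℕ → ℕ) (c : ℕ → ℤ → ℂ) (U : Finset ℕ) {f : ℂ → ℝ} (hf : Continuous f) :
    Integrable (fun z => f z * ‖gp e c U z‖) haar := by
  obtain ⟨B, hB0, hB⟩ := exists_bound e c U
  obtain ⟨K, hK⟩ := (isCompact_sphere (0 : ℂ) 1).exists_bound_of_continuousOn hf.continuousOn
  refine Integrable.of_bound (hf.measurable.mul (meas_gp e c U).norm).aestronglyMeasurable
    (K * B) ?_
  filter_upwards [haar_norm] with z hz
  have h1 : ‖f z‖ ≤ K := hK z (by simpa using hz)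
  rw [norm_mul, norm_norm]
  exact mul_le_mul h1 (hB z hz) (norm_nonneg _) ((norm_nonneg _).trans h1)

theorem gI_insert (e : ℕ → ℕ) (c : ℕ → ℤ → ℂ) {U : Finset ℕ} {n : ℕ} (hn : n ∉ U) (m : ℤ) :
    gI e c (insert n U) m =
      ∑ a ∈ Finset.Icc (-(e n : ℤ)) (e n), c n a * gI e c U (m + a * n) := by
  have hint : ∀ k : ℤ, Integrable (fun z => z ^ k * gp e c U z) haar := by
    intro k
    have h := int_gp e c U (continuous_const : Continuous fun _ : ℂ => (1 : ℂ)) k
    simpa using h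
  have h1 : ∀ a ∈ Finset.Icc (-(e n : ℤ)) (e n), c n a * gI e c U (m + a * n) =
      ∫ z, c n a * (z ^ (m + a * n) * gp e c U z) ∂haar := by
    intro a _
    unfold gI
    rw [integral_const_mul]
  rw [Finset.sum_congr rfl h1, ← integral_finsetSum _ fun a _ => (hint _).const_mul _]
  unfold gI
  refine integral_congr_ae ?_
  filter_upwards [haar_norm] with z hz
  have hz0 : z ≠ 0 := by
    rintro rfl
    simp at hz
  have h2 : gp e c (insert n U) z = fc e c n z * gp e c U z := by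
    unfold gp
    rw [Finset.prod_insert hn]
  rw [h2]
  unfold fc
  rw [Finset.sum_mul, Finset.mul_sum]
  refine Finset.sum_congr rfl fun a _ => ?_
  rw [zpow_add₀ hz0]
  ring

private theorem haar_zpow {m : ℤ} (hm : m ≠ 0) : ∫ z, z ^ m ∂haar = 0 := by
  rcases lt_or_gt_of_ne hm with h | h
  · obtain ⟨k, hk⟩ : ∃ k : ℕ, m = -(k : ℤ) := ⟨m.natAbs, by omega⟩
    have hk1 : 1 ≤ k := by omega
    have h1 : ∫ z, z ^ m ∂haar = ∫ z, (starRingEnd ℂ) (z ^ k) ∂haar := by
      refine integral_congr_ae ?_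
      filter_upwards [haar_norm] with z hz
      have hz1 : (starRingEnd ℂ) z = z⁻¹ := by
        rw [Complex.inv_def, Complex.normSq_eq_norm_sq, hz]; simp
      rw [hk, map_pow, hz1, zpow_neg, zpow_natCast, inv_pow]
    rw [h1, integral_conj, haar_zero hk1, map_zero]
  · obtain ⟨k, hk⟩ : ∃ k : ℕ, m = (k : ℤ) := ⟨m.natAbs, by omega⟩
    have hk1 : 1 ≤ k := by omega
    rw [hk]
    simp only [zpow_natCast]
    exact haar_zero hk1

theorem gI_out (e : ℕ → ℕ) (c : ℕ → ℤ → ℂ) (U : Finset ℕ) {m : ℤ}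
    (hm : ∑ n ∈ U, ((e n * n : ℕ) : ℤ) < |m|) : gI e c U m = 0 := by
  induction U using Finset.induction_on generalizing m with
  | empty =>
    rw [Finset.sum_empty] at hm
    have h0 : gI e c ∅ m = ∫ z, z ^ m ∂haar := by
      simp [gI, gp]
    rw [h0]
    exact haar_zpow (abs_pos.1 hm)
  | insert n U hn ih =>
    rw [gI_insert e c hn]
    refine Finset.sum_eq_zero fun a ha => ?_
    rw [Finset.sum_insert hn] at hm
    rw [Finset.mem_Icc] at ha
    have h1 : |a * (n : ℤ)| ≤ ((e n * n : ℕ) : ℤ) := by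
      rw [abs_mul, Nat.abs_cast]
      push_cast
      exact mul_le_mul_of_nonneg_right (abs_le.2 ha) (by positivity)
    have h2 : |m| ≤ |m + a * (n : ℤ)| + |a * (n : ℤ)| := by
      have := abs_sub (m + a * (n : ℤ)) (a * (n : ℤ))
      rwa [add_sub_cancel_right] at this
    rw [ih (by linarith), mul_zero]

end Forcing.HZ
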