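import Pool.Agent.Lib.MP_c80ac4_an.HZ.GA

/-!
# Row GB: the coefficients are computed exactly

Induction on the maximum (`Finset.induction_on_max`), `U = insert n B`, `gI_insert`; `sd e U n` is the
sum over `B`, and `sd e U k = sd e B k` for `k ∈ B`.
`gI_zero`: `|a n| ≥ n > ∑ B` for `a ≠ 0`, so only `a = 0` remains (`gI_out`).
`gI_main`: for `n ≠ m` the terms with `a ≠ 0` vanish by `hs`, the term `a = 0` is the induction
hypothesis. For `n = m` the term `a = -1` is `c m (-1) * gI B 0 = c m (-1)`, the other terms are at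
`(1 + a) m`, `|(1 + a) m| ≥ m > ∑ B`. For `U = ∅`: `haar_zero`.
`gI_self`: `gI_main` with `m = n`: for `k < n`, `k ∈ U`, `a ≠ 0`, `|a| ≤ e k`:
`|n + a k| ≥ n - e k * k > sd k` because `n > 2 sd n` and `sd n ≥ sd k + e k * k`; for `k > n`:
`|n + a k| ≥ k - n > sd k` because `k > 2 sd k` and `sd k ≥ e n * n ≥ n`.
-/

namespace Forcing.HZ

open Complex Metric Set MeasureTheory Filter Topology Forcing.RZ Forcing.UN

variable {e : ℕ → ℕ} {c : ℕ → ℤ → ℂ} {U : Finset ℕ}

private theorem gb_sd_top {n : ℕ} {B : Finset ℕ} (hb : ∀ x ∈ B, x < n) :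
    sd e (insert n B) n = ∑ k ∈ B, e k * k := by
  unfold sd
  congr 1
  ext x
  simp only [Finset.mem_filter, Finset.mem_insert]
  constructor
  · rintro ⟨rfl | h, h2⟩
    · exact absurd h2 (lt_irrefl _)
    · exact h
  · intro h
    exact ⟨Or.inr h, hb x h⟩

private theorem gb_sd_low {n k : ℕ} {B : Finset ℕ} (hk : k < n) :
    sd e (insert n B) k = sd e B k := by
  unfold sd
  congr 1
  rw [Finset.filter_insert, if_neg (by omega)]

private theorem gb_adm {n : ℕ} {B : Finset ℕ} (hb : ∀ x ∈ B, x < n) (h : Adm e c (insert n B)) :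
    Adm e c B where
  pos k hk := h.pos k (Finset.mem_insert_of_mem hk)
  deg k hk := h.deg k (Finset.mem_insert_of_mem hk)
  one k hk := h.one k (Finset.mem_insert_of_mem hk)
  gap k hk := by
    have h1 := h.gap k (Finset.mem_insert_of_mem hk)
    rwa [gb_sd_low (hb k hk)] at h1
  nn k hk := h.nn k (Finset.mem_insert_of_mem hk)

private theorem gb_out {n : ℕ} {B : Finset ℕ} (hb : ∀ x ∈ B, x < n) {j : ℤ}
    (hj : (sd e (insert n B) n : ℤ) < |j|) : gI e c B j = 0 := by
  refine gI_out e c B (lt_of_le_of_lt (le_of_eq ?_) hj)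
  rw [gb_sd_top hb]
  push_cast
  rfl

private theorem gb_ge {n : ℕ} {a : ℤ} (ha : a ≠ 0) : (n : ℤ) ≤ |a * n| := by
  rw [abs_mul, abs_of_nonneg (Int.natCast_nonneg n : (0 : ℤ) ≤ n)]
  have h1 : 1 ≤ |a| := Int.one_le_abs ha
  have h2 : (0 : ℤ) ≤ n := Int.natCast_nonneg n
  nlinarith

theorem gI_zero (h : Adm e c U) : gI e c U 0 = 1 := by
  induction U using Finset.induction_on_max with
  | empty => simp [gI, gp]
  | insert n B hb ih =>
    have hnB : n ∉ B := fun h => lt_irrefl _ (hb n h)
    have hgap := h.gap n (Finset.mem_insert_self _ _)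
    rw [gI_insert e c hnB, Finset.sum_eq_single 0]
    · rw [h.one n (Finset.mem_insert_self _ _), zero_mul, add_zero, ih (gb_adm hb h), one_mul]
    · intro a _ ha
      rw [gb_out hb, mul_zero]
      rw [zero_add]
      have h1 := gb_ge (n := n) ha
      omega
    · intro h0
      exact absurd (Finset.mem_Icc.mpr ⟨by omega, by omega⟩) h0

theorem gI_main (h : Adm e c U) {m : ℕ} (hm : 1 ≤ m)
    (hs : ∀ n ∈ U, n ≠ m → ∀ a : ℤ, a ≠ 0 → |a| ≤ e n → (sd e U n : ℤ) < |(m : ℤ) + a * n|) :
    gI e c U m = if m ∈ U then c m (-1) else 0 := by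
  induction U using Finset.induction_on_max with
  | empty =>
    rw [if_neg (Finset.notMem_empty m)]
    have h1 := haar_zero hm
    simpa [gI, gp] using h1
  | insert n B hb ih =>
    have hnB : n ∉ B := fun h => lt_irrefl _ (hb n h)
    have hgap := h.gap n (Finset.mem_insert_self _ _)
    have hB := gb_adm hb h
    rw [gI_insert e c hnB]
    by_cases hnm : n = m
    · subst hnm
      rw [if_pos (Finset.mem_insert_self _ _), Finset.sum_eq_single (-1)]
      · have e1 : (n : ℤ) + -1 * n = 0 := by ring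
        rw [e1, gI_zero hB, mul_one]
      · intro a _ ha
        rw [gb_out hb, mul_zero]
        have e1 : (n : ℤ) + a * n = (1 + a) * n := by ring
        rw [e1]
        have h1 := gb_ge (n := n) (a := 1 + a) (by omega)
        omega
      · intro h0
        have := h.deg n (Finset.mem_insert_self _ _)
        exact absurd (Finset.mem_Icc.mpr ⟨by omega, by omega⟩) h0
    · have hmem : (m ∈ insert n B) ↔ m ∈ B := by
        rw [Finset.mem_insert]
        constructor
        · rintro (h | h)
          · exact absurd h.symm hnm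
          · exact h
        · exact Or.inr
      rw [Finset.sum_eq_single 0]
      · rw [h.one n (Finset.mem_insert_self _ _), zero_mul, add_zero, one_mul, ih hB]
        · simp only [hmem]
        · intro k hk hkm a ha hak
          have h1 := hs k (Finset.mem_insert_of_mem hk) hkm a ha hak
          rwa [gb_sd_low (hb k hk)] at h1
      · intro a hmem' ha
        rw [gb_out hb, mul_zero]
        refine hs n (Finset.mem_insert_self _ _) hnm a ha ?_
        rw [Finset.mem_Icc] at hmem'
        exact abs_le.mpr hmem'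
      · intro h0
        exact absurd (Finset.mem_Icc.mpr ⟨by omega, by omega⟩) h0

private theorem gb_step {k n : ℕ} (hk : k ∈ U) (hkn : k < n) : sd e U k + e k * k ≤ sd e U n := by
  unfold sd
  have h1 : k ∉ U.filter (· < k) := by simp
  have h2 : insert k (U.filter (· < k)) ⊆ U.filter (· < n) := by
    intro x hx
    rw [Finset.mem_insert, Finset.mem_filter] at hx
    rw [Finset.mem_filter]
    rcases hx with rfl | ⟨hx, hx2⟩
    · exact ⟨hk, hkn⟩
    · exact ⟨hx, by omega⟩
  have h3 := Finset.sum_le_sum_of_subset (f := fun k => e k * k) h2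
  rw [Finset.sum_insert h1] at h3
  omega

theorem gI_self (h : Adm e c U) {n : ℕ} (hn : n ∈ U) : gI e c U n = c n (-1) := by
  rw [gI_main h (h.pos n hn), if_pos hn]
  intro k hk hkn a ha hak
  have hgn := h.gap n hn
  have hgk := h.gap k hk
  rcases lt_or_gt_of_ne hkn with hlt | hlt
  · have h1 := gb_step (e := e) hk hlt
    have h2 : -((e k : ℤ) * k) ≤ a * k := by
      have h3 := (abs_le.mp hak).1
      have h4 : (0 : ℤ) ≤ k := Int.natCast_nonneg k
      nlinarith
    have h5 := le_abs_self ((n : ℤ) + a * k)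
    zify at h1 hgn
    have h6 : (0 : ℤ) ≤ sd e U k := Int.natCast_nonneg _
    linarith
  · have h1 := gb_step (e := e) hn hlt
    have h2 := gb_ge (n := k) ha
    have h3 : n ≤ e n * n := Nat.le_mul_of_pos_left n (h.deg n hn)
    have h4 := abs_sub_abs_le_abs_sub (a * k : ℤ) (-(n : ℤ))
    rw [abs_neg, abs_of_nonneg (Int.natCast_nonneg n : (0 : ℤ) ≤ n), sub_neg_eq_add, add_comm (a * (k : ℤ))] at h4
    zify at h1 h3 hgk
    linarith

end Forcing.HZ
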