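import Pool.Agent.Lib.MP_c80ac4_an.HZ.Num
import Pool.Agent.Lib.MP_c80ac4_an.HZ.Clo

/-!
# Row NOR: the set carries no Rajchman measure (as RJ/Raj.lean, RJ/NoR.lean)

PROOF of `exists_avg`: `m ≥ 2 / δ`, `N` with `‖∫ z^n dμ‖ ≤ δ / 2` for `n ≥ N`, `F` = the indices
`Nat.pair i (N + 1 + l)`, `l < m` (they are `≥ N + 1`). For two of them, `k < l`,
`tt l - tt k ≥ tt k ≥ k ≥ N` (`bd_lt`, `tt_le_bd`). So the integral is at most
`(m + m² δ/2) / m²`. PROOF of `no_rajchman`: on `Ei i` one has `‖z^(tt k) - 1‖ ≤ 1/16` for `k ∈ F`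
(`k ≥ 1`), so the mean has modulus `≥ 1/2` and `μ (Ei i) ≤ 4 δ` for every `δ`. So `μ EH = 0`.
-/

namespace Forcing.HZ

open Complex Metric Set MeasureTheory Filter Topology Forcing.RZ Forcing.UN

private theorem nr_gap {k l : ℕ} (h : k < l) : tt k < tt l ∧ k ≤ tt l - tt k := by
  have h1 := bd_lt h
  have h2 := tt_le_bd k
  have h3 := self_le_tt k
  have h5 := le_tt k
  have h4 : 2 * tt k ≤ 16 ^ (4 * l + 4) * bd k := by
    refine Nat.mul_le_mul ?_ h2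
    calc 2 ≤ 16 ^ 1 := by norm_num
      _ ≤ 16 ^ (4 * l + 4) := Nat.pow_le_pow_right (by norm_num) (by omega)
  omega

private theorem nr_conj {z : ℂ} (hz : ‖z‖ = 1) (t : ℕ) :
    z ^ t * (starRingEnd ℂ) (z ^ t) = 1 := by
  rw [Complex.mul_conj, Complex.normSq_eq_norm_sq, norm_pow, hz]
  simp

private theorem nr_lt {μ : Measure ℂ} (hμ : ∀ᵐ z ∂μ, ‖z‖ = 1) {s t : ℕ} (h : s < t) :
    ∫ z, z ^ t * (starRingEnd ℂ) (z ^ s) ∂μ = ∫ z, z ^ (t - s) ∂μ := by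
  refine integral_congr_ae ?_
  filter_upwards [hμ] with z hz
  have h1 : z ^ t = z ^ (t - s) * z ^ s := by
    rw [← pow_add]
    congr 1
    omega
  rw [h1, mul_assoc, nr_conj hz, mul_one]

private theorem nr_gt {μ : Measure ℂ} (hμ : ∀ᵐ z ∂μ, ‖z‖ = 1) {s t : ℕ} (h : t < s) :
    ∫ z, z ^ t * (starRingEnd ℂ) (z ^ s) ∂μ = (starRingEnd ℂ) (∫ z, z ^ (s - t) ∂μ) := by
  rw [← integral_conj]
  refine integral_congr_ae ?_
  filter_upwards [hμ] with z hz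
  have h1 : z ^ s = z ^ t * z ^ (s - t) := by
    rw [← pow_add]
    congr 1
    omega
  rw [h1, map_mul, ← mul_assoc, nr_conj hz, one_mul]

private theorem nr_ms {μ : Measure ℂ} [IsProbabilityMeasure μ] (hμ : ∀ᵐ z ∂μ, ‖z‖ = 1) {δ : ℝ}
    (hδ : 0 ≤ δ) (s : Finset ℕ) (f : ℕ → ℕ)
    (h : ∀ l ∈ s, ∀ l' ∈ s, l ≠ l' →
      ‖∫ z, z ^ f l * (starRingEnd ℂ) (z ^ f l') ∂μ‖ ≤ δ) :
    ∫ z, ‖∑ l ∈ s, z ^ f l‖ ^ 2 ∂μ ≤ s.card + (s.card : ℝ) ^ 2 * δ := by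
  have hint : ∀ a b : ℕ, Integrable (fun z : ℂ => z ^ a * (starRingEnd ℂ) (z ^ b)) μ := by
    intro a b
    have hc : Continuous (fun z : ℂ => z ^ a * (starRingEnd ℂ) (z ^ b)) :=
      (continuous_pow a).mul (Complex.continuous_conj.comp (continuous_pow b))
    refine Integrable.of_bound hc.aestronglyMeasurable 1 ?_
    filter_upwards [hμ] with z hz
    rw [norm_mul, RCLike.norm_conj, norm_pow, norm_pow, hz]
    simp
  have h1 : ((∫ z, ‖∑ l ∈ s, z ^ f l‖ ^ 2 ∂μ : ℝ) : ℂ) =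
      ∑ l ∈ s, ∑ l' ∈ s, ∫ z, z ^ f l * (starRingEnd ℂ) (z ^ f l') ∂μ := by
    rw [← integral_complex_ofReal]
    have h2 : (fun z : ℂ => ((‖∑ l ∈ s, z ^ f l‖ ^ 2 : ℝ) : ℂ)) =
        fun z => ∑ l ∈ s, ∑ l' ∈ s, z ^ f l * (starRingEnd ℂ) (z ^ f l') := by
      funext z
      rw [← Finset.sum_mul_sum, ← map_sum, Complex.mul_conj, Complex.normSq_eq_norm_sq]
    rw [h2, integral_finset_sum _ fun l _ => integrable_finset_sum _ fun l' _ => hint _ _]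
    refine Finset.sum_congr rfl fun l _ => ?_
    rw [integral_finset_sum _ fun l' _ => hint _ _]
  have h0 : 0 ≤ ∫ z, ‖∑ l ∈ s, z ^ f l‖ ^ 2 ∂μ := integral_nonneg fun z => by positivity
  have h3 : ∀ l ∈ s, ∀ l' ∈ s, ‖∫ z, z ^ f l * (starRingEnd ℂ) (z ^ f l') ∂μ‖ ≤
      (if l = l' then 1 else 0) + δ := by
    intro l hl l' hl'
    by_cases e : l = l'
    · subst e
      rw [if_pos rfl]
      have h4 : ∫ z, z ^ f l * (starRingEnd ℂ) (z ^ f l) ∂μ = ∫ _z, (1 : ℂ) ∂μ := by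
        refine integral_congr_ae ?_
        filter_upwards [hμ] with z hz
        exact nr_conj hz _
      rw [h4]
      simp [hδ]
    · rw [if_neg e, zero_add]
      exact h l hl l' hl' e
  calc ∫ z, ‖∑ l ∈ s, z ^ f l‖ ^ 2 ∂μ
      = ‖((∫ z, ‖∑ l ∈ s, z ^ f l‖ ^ 2 ∂μ : ℝ) : ℂ)‖ := (Complex.norm_of_nonneg h0).symm
    _ = ‖∑ l ∈ s, ∑ l' ∈ s, ∫ z, z ^ f l * (starRingEnd ℂ) (z ^ f l') ∂μ‖ := by rw [h1]
    _ ≤ ∑ l ∈ s, ∑ l' ∈ s, ‖∫ z, z ^ f l * (starRingEnd ℂ) (z ^ f l') ∂μ‖ :=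
        (norm_sum_le _ _).trans (Finset.sum_le_sum fun l _ => norm_sum_le _ _)
    _ ≤ ∑ l ∈ s, ∑ l' ∈ s, ((if l = l' then 1 else 0) + δ) :=
        Finset.sum_le_sum fun l hl => Finset.sum_le_sum fun l' hl' => h3 l hl l' hl'
    _ = s.card + (s.card : ℝ) ^ 2 * δ := by
        have h5 : ∀ l ∈ s, ∑ l' ∈ s, ((if l = l' then (1 : ℝ) else 0) + δ) = 1 + s.card * δ := by
          intro l hl
          rw [Finset.sum_add_distrib, Finset.sum_ite_eq, if_pos hl, Finset.sum_const,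
            nsmul_eq_mul]
        rw [Finset.sum_congr rfl h5, Finset.sum_const, nsmul_eq_mul]
        ring

theorem exists_avg {μ : Measure ℂ} [IsProbabilityMeasure μ] (hμ : ∀ᵐ z ∂μ, ‖z‖ = 1)
    (hr : Tendsto (fun n : ℕ => ∫ z, z ^ n ∂μ) atTop (𝓝 0)) (i : ℕ) {δ : ℝ} (hδ : 0 < δ) :
    ∃ F : Finset ℕ, F.Nonempty ∧ (∀ k ∈ F, gr k = i ∧ 1 ≤ k) ∧
      ∫ z, ‖(1 / (F.card : ℂ)) * ∑ k ∈ F, z ^ tt k‖ ^ 2 ∂μ ≤ δ := by
  rw [Metric.tendsto_atTop] at hr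
  obtain ⟨N, hN⟩ := hr (δ / 2) (by positivity)
  obtain ⟨m, hm⟩ := exists_nat_gt (2 / δ)
  have hm0 : (0 : ℝ) < m := lt_trans (by positivity) hm
  have hm1 : 0 < m := by exact_mod_cast hm0
  obtain ⟨F, hF⟩ : ∃ F : Finset ℕ, F = (Finset.range m).image fun l => Nat.pair i (N + 1 + l) := ⟨_, rfl⟩
  have hcard : F.card = m := by
    rw [hF, Finset.card_image_of_injective, Finset.card_range]
    intro l l' h
    have h1 := (Nat.pair_eq_pair.1 h).2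
    omega
  have hFN : ∀ k ∈ F, gr k = i ∧ N + 1 ≤ k := by
    intro k hk
    rw [hF] at hk
    obtain ⟨l, -, rfl⟩ := Finset.mem_image.1 hk
    refine ⟨?_, ?_⟩
    · unfold gr
      rw [Nat.unpair_pair]
    · have := Nat.right_le_pair i (N + 1 + l)
      omega
  refine ⟨F, ?_, fun k hk => ⟨(hFN k hk).1, by have := (hFN k hk).2; omega⟩, ?_⟩
  · rw [← Finset.card_pos, hcard]
    exact hm1
  have hsm : ∀ n : ℕ, N ≤ n → ‖∫ z, z ^ n ∂μ‖ ≤ δ / 2 := by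
    intro n hn
    have h2 := hN n hn
    rw [dist_zero_right] at h2
    exact h2.le
  have h2 := nr_ms hμ (show (0 : ℝ) ≤ δ / 2 by positivity) F tt (by
      intro l hl l' hl' hne
      have k1 := (hFN l hl).2
      have k2 := (hFN l' hl').2
      rcases lt_or_gt_of_ne hne with h3 | h3
      · obtain ⟨g1, g2⟩ := nr_gap h3
        rw [nr_gt hμ g1, RCLike.norm_conj]
        exact hsm _ (by omega)
      · obtain ⟨g1, g2⟩ := nr_gap h3
        rw [nr_lt hμ g1]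
        exact hsm _ (by omega))
  rw [hcard] at h2 ⊢
  have h1 : ∀ z : ℂ, ‖(1 / (m : ℂ)) * ∑ k ∈ F, z ^ tt k‖ ^ 2 = (1 / (m : ℝ) ^ 2) * ‖∑ k ∈ F, z ^ tt k‖ ^ 2 := by
    intro z
    rw [norm_mul, mul_pow]
    congr 1
    rw [norm_div, norm_one, Complex.norm_natCast, div_pow, one_pow]
  simp_rw [h1]
  rw [integral_const_mul]
  have h4 : (2 : ℝ) < δ * m := by
    rw [div_lt_iff₀ hδ] at hm
    linarith
  calc 1 / (m : ℝ) ^ 2 * ∫ z, ‖∑ k ∈ F, z ^ tt k‖ ^ 2 ∂μ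
      ≤ 1 / (m : ℝ) ^ 2 * (m + (m : ℝ) ^ 2 * (δ / 2)) := by gcongr
    _ = 1 / m + δ / 2 := by
        field_simp
    _ ≤ δ := by
        have h5 : 1 / (m : ℝ) ≤ δ / 2 := by
          rw [div_le_iff₀ hm0]
          linarith
        linarith

private theorem nr_avg_one {F : Finset ℕ} (hF : F.Nonempty) {z : ℂ} {ε : ℝ} (h : ∀ k ∈ F, ‖z ^ tt k - 1‖ ≤ ε) :
    1 - ε ≤ ‖(1 / (F.card : ℂ)) * ∑ k ∈ F, z ^ tt k‖ := by
  have hc : (0 : ℝ) < F.card := by exact_mod_cast Finset.card_pos.2 hF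
  have hc' : (F.card : ℂ) ≠ 0 := by
    exact_mod_cast (Finset.card_pos.2 hF).ne'
  have h1 : (1 / (F.card : ℂ)) * ∑ k ∈ F, (z ^ tt k - 1) = (1 / (F.card : ℂ)) * ∑ k ∈ F, z ^ tt k - 1 := by
    rw [Finset.sum_sub_distrib, mul_sub, Finset.sum_const, nsmul_eq_mul, mul_one]
    congr 1
    field_simp
  have h2 : ‖(1 / (F.card : ℂ)) * ∑ k ∈ F, (z ^ tt k - 1)‖ ≤ ε := by
    rw [norm_mul, norm_div, norm_one, Complex.norm_natCast]
    have h3 : ‖∑ k ∈ F, (z ^ tt k - 1)‖ ≤ F.card * ε := by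
      refine (norm_sum_le _ _).trans ?_
      refine (Finset.sum_le_card_nsmul _ _ _ h).trans ?_
      rw [nsmul_eq_mul]
    calc 1 / (F.card : ℝ) * ‖∑ k ∈ F, (z ^ tt k - 1)‖ ≤ 1 / (F.card : ℝ) * (F.card * ε) :=
          mul_le_mul_of_nonneg_left h3 (by positivity)
      _ = ε := by field_simp
  rw [h1] at h2
  have h4 : ‖(1 : ℂ)‖ ≤ ‖(1 / (F.card : ℂ)) * ∑ k ∈ F, z ^ tt k‖ + ‖(1 / (F.card : ℂ)) * ∑ k ∈ F, z ^ tt k - 1‖ := by
    have h5 : (1 : ℂ) = (1 / (F.card : ℂ)) * ∑ k ∈ F, z ^ tt k - ((1 / (F.card : ℂ)) * ∑ k ∈ F, z ^ tt k - 1) := by ring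
    calc ‖(1 : ℂ)‖ = ‖(1 / (F.card : ℂ)) * ∑ k ∈ F, z ^ tt k - ((1 / (F.card : ℂ)) * ∑ k ∈ F, z ^ tt k - 1)‖ := by
          rw [← h5]
      _ ≤ _ := norm_sub_le _ _
  rw [norm_one] at h4
  linarith

private theorem nr_null {μ : Measure ℂ} [IsProbabilityMeasure μ] (hc : ∀ᵐ z ∂μ, ‖z‖ = 1)
    (hr : Tendsto (fun n : ℕ => ∫ z, z ^ n ∂μ) atTop (𝓝 0)) (i : ℕ) : μ (Ei i) = 0 := by
  have h1 : ∀ δ : ℝ, 0 < δ → μ.real (Ei i) ≤ 4 * δ := by
    intro δ hδ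
    obtain ⟨F, hF1, hF2, hF3⟩ := exists_avg hc hr i hδ
    have hcont : Continuous (fun z : ℂ => (1 / (F.card : ℂ)) * ∑ k ∈ F, z ^ tt k) :=
      continuous_const.mul (continuous_finset_sum _ fun k _ => continuous_pow _)
    have hint : Integrable (fun z : ℂ => ‖(1 / (F.card : ℂ)) * ∑ k ∈ F, z ^ tt k‖ ^ 2) μ := by
      refine Integrable.of_bound (hcont.norm.pow 2).aestronglyMeasurable 1 ?_
      filter_upwards [hc] with z hz
      rw [Real.norm_eq_abs, abs_of_nonneg (by positivity)]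
      refine pow_le_one₀ (norm_nonneg _) ?_
      rw [norm_mul, norm_div, norm_one, Complex.norm_natCast]
      have hc0 : (0 : ℝ) < F.card := by exact_mod_cast Finset.card_pos.2 hF1
      have h3 : ‖∑ k ∈ F, z ^ tt k‖ ≤ F.card := by
        refine (norm_sum_le _ _).trans ?_
        have h4 : ∀ k ∈ F, ‖z ^ tt k‖ ≤ 1 := fun k _ => by rw [norm_pow, hz, one_pow]
        refine (Finset.sum_le_card_nsmul _ _ _ h4).trans ?_
        rw [nsmul_eq_mul, mul_one]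
      calc 1 / (F.card : ℝ) * ‖∑ k ∈ F, z ^ tt k‖ ≤ 1 / (F.card : ℝ) * F.card :=
            mul_le_mul_of_nonneg_left h3 (by positivity)
        _ = 1 := by field_simp
    have h2 := mul_meas_ge_le_integral_of_nonneg (μ := μ)
      (Filter.Eventually.of_forall fun z => by positivity :
        0 ≤ᵐ[μ] fun z : ℂ => ‖(1 / (F.card : ℂ)) * ∑ k ∈ F, z ^ tt k‖ ^ 2) hint (1 / 4)
    have h3 : μ.real (Ei i) ≤ μ.real {z : ℂ | 1 / 4 ≤ ‖(1 / (F.card : ℂ)) * ∑ k ∈ F, z ^ tt k‖ ^ 2} := by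
      refine measureReal_mono ?_
      intro z hz
      have h4 : 1 - 1 / 2 ≤ ‖(1 / (F.card : ℂ)) * ∑ k ∈ F, z ^ tt k‖ := by
        refine nr_avg_one hF1 fun k hk => ?_
        obtain ⟨k1, k2⟩ := hF2 k hk
        have h5 := hz.2.2 k k1
        have h6 : (2 : ℝ) ≤ (tt k : ℝ) ^ k := by
          have h7 : (16 : ℝ) ≤ tt k := by exact_mod_cast le_tt k
          calc (2 : ℝ) ≤ (tt k : ℝ) ^ 1 := by rw [pow_one]; linarith
            _ ≤ (tt k : ℝ) ^ k := pow_le_pow_right₀ (by linarith) k2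
        exact h5.trans (one_div_le_one_div_of_le (by norm_num) h6)
      show 1 / 4 ≤ ‖(1 / (F.card : ℂ)) * ∑ k ∈ F, z ^ tt k‖ ^ 2
      nlinarith
    linarith
  have h3 : μ.real (Ei i) ≤ 0 := by
    refine le_of_forall_pos_le_add fun ε hε => ?_
    have := h1 (ε / 4) (by positivity)
    linarith
  have h4 : μ.real (Ei i) = 0 := le_antisymm h3 measureReal_nonneg
  rwa [measureReal_eq_zero_iff] at h4

theorem no_rajchman {μ : Measure ℂ} [IsProbabilityMeasure μ]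
    (hμ : ∀ᵐ z ∂μ, z ∈ EH) : ¬ Tendsto (fun n : ℕ => ∫ z, z ^ n ∂μ) atTop (𝓝 0) := by
  intro hr
  have hc : ∀ᵐ z ∂μ, ‖z‖ = 1 := by
    filter_upwards [hμ] with z hz
    obtain ⟨i, hi⟩ := mem_iUnion.mp hz
    exact hi.1
  have h3 : μ EH = 0 := measure_iUnion_null fun i => nr_null hc hr i
  have h4 : ∀ᵐ z ∂μ, z ∉ EH := measure_eq_zero_iff_ae_notMem.mp h3
  obtain ⟨z, hz1, hz2⟩ := (hμ.and h4).exists
  exact hz2 hz1

end Forcing.HZ
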