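import Pool.Agent.Lib.MP_c80ac4_an.HZ.Fin
import Pool.Agent.Lib.MP_c80ac4_an.HZ.NoR
import Pool.Agent.Lib.MP_c80ac4_an.HZ.Dim

/-! # A boundary set of Hausdorff dimension zero which carries no Rajchman measure -/

namespace Forcing.HZ

open Complex Metric Set MeasureTheory Filter Topology

theorem exists_dim_zero : ∃ E : Set ℂ, IsClosed E ∧ E ⊆ sphere 0 1 ∧ SidonOn E ∧ dimH E = 0 ∧
    ∀ μ : Measure ℂ, IsProbabilityMeasure μ → (∀ᵐ z ∂μ, z ∈ E) →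
      ¬ Tendsto (fun n : ℕ => ∫ z, z ^ n ∂μ) atTop (𝓝 0) :=
  ⟨EH, isClosed_EH, EH_subset, sidon_EH, dim_EH, fun _ _ h => no_rajchman h⟩

end Forcing.HZ
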