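import Pool.Agent.Lib.MP_c80ac4_an.HZ.Num

/-!
# Row SDA: the degree below an element of `A`

PROOF. `sd n = ∑` over the `k ∈ UU`, `k < n`: the element 1 gives `bd k₀` (`1 ∉ A` as
`tt (k₀+1) > 1`), and `16^(4 k₀ + 8) bd k₀ ≤ tt (k₀+1) ≤ n` (`bd_lt`). The elements of `A` below `n`
give at most `n / (Q-1) ≤ c n` (`RZ.gap_sum_le`). The `tt k ∈ WW`, `tt k < n`, give `tt k * dg k`
(`ix_tt`; they are not in `A`, not 1) and `n` is not near `k`, so `16^k (tt k * dg k) < n`
(`not_near`), `k ≥ k₀ + 1`: together at most `n ∑ k ≥ k₀ + 1, 16^(-k) ≤ n (2/16) 16^(-k₀)`.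
Total `< n (c + 16^(-k₀)) ≤ 2 c n`.
(`Finset.sum_union`-type inequalities: bound the sum over `insert 1 (A ∪ W)` by the three sums.)
-/

namespace Forcing.HZ

theorem sd_A {i k₀ T : ℕ} {Q c : ℝ} (hQ : 5 ≤ Q) (hQc : 1 / (Q - 1) ≤ c)
    (hk : 1 ≤ c * 16 ^ k₀) {A : Finset ℕ} (hA : Lc Q A) (hN : ∀ n ∈ A, tt (k₀ + 1) ≤ n)
    (hAw : Away i A) {n : ℕ} (hn : n ∈ A) :
    (sd (ee k₀ A) (UU i k₀ T A) n : ℝ) < 2 * c * n := by
  classical
  have hn16 : tt (k₀ + 1) ≤ n := hN n hn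
  have h16 := le_tt (k₀ + 1)
  have hn0 : (0 : ℝ) < n := by
    have : 0 < n := by omega
    exact_mod_cast this
  have h1A : (1 : ℕ) ∉ A := fun h => by
    have := hN 1 h
    omega
  obtain ⟨f, hf⟩ : ∃ f : ℕ → ℕ, ∀ m, f m = ee k₀ A m * m := ⟨_, fun _ => rfl⟩
  obtain ⟨P, hP⟩ : ∃ P : ℝ, P = (1 / 16 : ℝ) ^ k₀ := ⟨_, rfl⟩
  have hP0 : 0 < P := by rw [hP]; positivity
  have hPe : P = 1 / 16 ^ k₀ := by rw [hP, one_div_pow]
  -- the three parts
  have hsplit : sd (ee k₀ A) (UU i k₀ T A) n ≤ f 1 + (∑ m ∈ A.filter (· < n), f m + ∑ m ∈ (WW i k₀ T).filter (· < n), f m) := by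
    have h1 : sd (ee k₀ A) (UU i k₀ T A) n = ∑ m ∈ (UU i k₀ T A).filter (· < n), f m := by
      unfold sd
      exact Finset.sum_congr rfl fun m _ => (hf m).symm
    rw [h1]
    have h2 : (UU i k₀ T A).filter (· < n) ⊆ insert 1 (A.filter (· < n) ∪ (WW i k₀ T).filter (· < n)) := by
      intro m hm
      rw [Finset.mem_filter] at hm
      obtain ⟨h3, h4⟩ := hm
      unfold UU at h3
      rw [Finset.mem_insert, Finset.mem_union] at h3
      rw [Finset.mem_insert, Finset.mem_union, Finset.mem_filter, Finset.mem_filter]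
      tauto
    refine (Finset.sum_le_sum_of_subset h2).trans ?_
    have h5 : ∀ s : Finset ℕ, ∑ m ∈ insert 1 s, f m ≤ f 1 + ∑ m ∈ s, f m := by
      intro s
      by_cases h : (1 : ℕ) ∈ s
      · rw [Finset.insert_eq_of_mem h]
        omega
      · rw [Finset.sum_insert h]
    refine (h5 _).trans (Nat.add_le_add_left ?_ _)
    have h6 := Finset.sum_union_inter (s₁ := A.filter (· < n)) (s₂ := (WW i k₀ T).filter (· < n)) (f := f)
    omega
  have hf1 : (f 1 : ℝ) ≤ n * P / 16 := by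
    have h1 : f 1 = bd k₀ := by
      rw [hf]
      unfold ee
      rw [if_neg h1A, if_pos rfl, mul_one]
    have h2 : 16 ^ (4 * (k₀ + 1) + 4) * bd k₀ ≤ n := (bd_lt (Nat.lt_succ_self k₀)).trans hn16
    have h3 : (16 : ℝ) ^ (4 * (k₀ + 1) + 4) * bd k₀ ≤ n := by exact_mod_cast h2
    have h4 : (16 : ℝ) ^ (k₀ + 1) ≤ 16 ^ (4 * (k₀ + 1) + 4) := pow_le_pow_right₀ (by norm_num) (by omega)
    have h5 : (16 : ℝ) ^ (k₀ + 1) * bd k₀ ≤ n := (mul_le_mul_of_nonneg_right h4 (Nat.cast_nonneg _)).trans h3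
    rw [h1, hPe]
    have h6 : (n : ℝ) * (1 / 16 ^ k₀) / 16 = n / 16 ^ (k₀ + 1) := by
      rw [pow_succ]
      field_simp
    rw [h6, le_div_iff₀ (by positivity), mul_comm]
    exact h5
  have hfA : ((∑ m ∈ A.filter (· < n), f m : ℕ) : ℝ) ≤ c * n := by
    have h1 : ∑ m ∈ A.filter (· < n), f m = ∑ m ∈ A.filter (· < n), m := by
      refine Finset.sum_congr rfl fun m hm => ?_
      rw [hf]
      unfold ee
      rw [if_pos (Finset.mem_filter.1 hm).1, one_mul]
    rw [h1]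
    push_cast
    have h2 := Forcing.RZ.gap_sum_le (Q := Q) (by linarith) (A.filter (· < n))
      (fun m hm m' hm' h => hA m (Finset.mem_filter.1 hm).1 m' (Finset.mem_filter.1 hm').1 h) n hn0.le
      (fun m hm => hA m (Finset.mem_filter.1 hm).1 n hn (Finset.mem_filter.1 hm).2)
    refine h2.trans ?_
    calc (n : ℝ) / (Q - 1) = 1 / (Q - 1) * n := by ring
      _ ≤ c * n := mul_le_mul_of_nonneg_right hQc hn0.le
  have hfW : ((∑ m ∈ (WW i k₀ T).filter (· < n), f m : ℕ) : ℝ) ≤ n * P / 15 := by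
    unfold WW
    rw [Finset.filter_image, Finset.sum_image (fun a _ b _ h => tt_strictMono.injective h)]
    push_cast
    have h1 : ∀ k ∈ ((Finset.Ioo k₀ T).filter fun k => gr k = i).filter (fun a => tt a < n), (f (tt k) : ℝ) ≤ n * (1 / 16 : ℝ) ^ k := by
      intro k hk
      obtain ⟨hk1, hk2⟩ := Finset.mem_filter.1 hk
      obtain ⟨hk3, hk4⟩ := Finset.mem_filter.1 hk1
      have hkA : tt k ∉ A := fun h => hAw (tt k) h k hk4 (near_self k)
      have hk1 : tt k ≠ 1 := by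
        have := le_tt k
        omega
      have h2 : f (tt k) = dg k * tt k := by
        rw [hf]
        unfold ee
        rw [if_neg hkA, if_neg hk1, ix_tt]
      have h3 : 16 ^ k * (tt k * dg k) < n := by
        rcases not_near (hAw n hn k hk4) with h | h
        · exfalso
          have h4 : 1 ≤ 16 ^ k := Nat.one_le_pow _ _ (by norm_num)
          have h5 : 1 * n ≤ 16 ^ k * n := Nat.mul_le_mul_right n h4
          omega
        · exact h
      have h4 : (16 : ℝ) ^ k * (tt k * dg k) < n := by exact_mod_cast h3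
      rw [h2]
      push_cast
      have h5 : (n : ℝ) * (1 / 16 : ℝ) ^ k = n / 16 ^ k := by
        rw [one_div_pow]
        ring
      rw [h5, le_div_iff₀ (by positivity)]
      calc (dg k : ℝ) * tt k * 16 ^ k = 16 ^ k * (tt k * dg k) := by ring
        _ ≤ n := h4.le
    refine (Finset.sum_le_sum h1).trans ?_
    rw [← Finset.mul_sum]
    have h6 : ∑ k ∈ ((Finset.Ioo k₀ T).filter fun k => gr k = i).filter (fun a => tt a < n), (1 / 16 : ℝ) ^ k ≤
        ∑ k ∈ Finset.Ico (k₀ + 1) T, (1 / 16 : ℝ) ^ k := by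
      refine Finset.sum_le_sum_of_subset_of_nonneg (fun k hk => ?_) (fun _ _ _ => by positivity)
      have h7 := Finset.mem_Ioo.1 (Finset.mem_filter.1 (Finset.mem_filter.1 hk).1).1
      rw [Finset.mem_Ico]
      omega
    have h8 := geom_sum_Ico_le_of_lt_one (x := (1 / 16 : ℝ)) (m := k₀ + 1) (n := T) (by norm_num) (by norm_num)
    have h9 : (1 / 16 : ℝ) ^ (k₀ + 1) / (1 - 1 / 16) = P / 15 := by
      rw [pow_succ, ← hP]
      ring
    rw [h9] at h8
    calc (n : ℝ) * ∑ k ∈ ((Finset.Ioo k₀ T).filter fun k => gr k = i).filter (fun a => tt a < n), (1 / 16 : ℝ) ^ k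
        ≤ n * (P / 15) := mul_le_mul_of_nonneg_left (h6.trans h8) hn0.le
      _ = n * P / 15 := by ring
  have hPc : P ≤ c := by
    rw [hPe, div_le_iff₀ (by positivity)]
    exact hk
  have hnP : (n : ℝ) * P ≤ n * c := mul_le_mul_of_nonneg_left hPc hn0.le
  have hnP0 : 0 < (n : ℝ) * P := by positivity
  have htot : (sd (ee k₀ A) (UU i k₀ T A) n : ℝ) ≤ f 1 + ((∑ m ∈ A.filter (· < n), f m : ℕ) + (∑ m ∈ (WW i k₀ T).filter (· < n), f m : ℕ)) := by
    exact_mod_cast hsplit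
  linarith

end Forcing.HZ
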