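import Pool.Agent.Lib.MP_c80ac4_an.HZ.Num

/-!
# Row TT: compactness and the pointwise bound

`exists_T` as in CX/Cut2.lean or RJ/Tt.lean. `pointwise`: if `‖z - 1‖ ≤ 1 / tt k₀^(k₀+1)` and
`‖z^(tt k) - 1‖ ≤ 1 / tt k^k` for all `k ∈ Ioo k₀ T` of the group, then `‖z - 1‖ ≤ (1/2)^i`
(`tt k₀ ≥ 16`, `i ≤ k₀`), and for `k ≤ k₀`: `‖z^(tt k) - 1‖ ≤ tt k ‖z - 1‖ ≤ tt k / tt k₀^(k₀+1) ≤
1 / tt k^k` (`pow_lip` of UN/Cutoff.lean with `w = 1`, `pow_mono`), so `‖f z‖ ≤ M`. Otherwise one of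
the squares is at least 1, and `‖f z‖ ≤ S`.
-/

namespace Forcing.HZ

open Complex Metric Set MeasureTheory Filter Topology Forcing.RZ Forcing.UN

theorem exists_T {i : ℕ} {f : ℂ → ℂ} (hf : Continuous f) {M θ : ℝ} (hθ : 0 < θ)
    (hM : ∀ z ∈ Ei i, ‖f z‖ ≤ M) :
    ∃ T : ℕ, ∀ z : ℂ, ‖z‖ = 1 → ‖z - 1‖ ≤ (1 / 2 : ℝ) ^ i →
      (∀ k < T, gr k = i → ‖z ^ tt k - 1‖ ≤ 1 / (tt k : ℝ) ^ k) → ‖f z‖ ≤ M + θ := by
  by_contra hcon
  push Not at hcon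
  choose z hz1 hz2 hz4 hz5 using hcon
  obtain ⟨b, hb, φ, hφ, hlim⟩ := (isCompact_sphere (0 : ℂ) 1).tendsto_subseq
    (x := z) (fun n => by simpa using hz1 n)
  have hc : Tendsto (fun n => ‖(z ∘ φ) n - 1‖) atTop (𝓝 ‖b - 1‖) :=
    ((continuous_id.sub continuous_const).norm.tendsto b).comp hlim
  have h1 : b ∈ Ei i := by
    refine ⟨by simpa using hb, le_of_tendsto' hc fun n => hz2 _, fun k hk => ?_⟩
    have h2 : Tendsto (fun n => ‖((z ∘ φ) n) ^ tt k - 1‖) atTop (𝓝 ‖b ^ tt k - 1‖) :=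
      ((((continuous_id.pow (tt k)).sub continuous_const).norm).tendsto b).comp hlim
    refine le_of_tendsto h2 ?_
    filter_upwards [eventually_gt_atTop k] with n hn
    exact hz4 _ k (lt_of_lt_of_le hn (hφ.id_le n)) hk
  have h2 : Tendsto (fun n => ‖f ((z ∘ φ) n)‖) atTop (𝓝 ‖f b‖) :=
    (hf.norm.tendsto b).comp hlim
  have h3 : M + θ ≤ ‖f b‖ := ge_of_tendsto' h2 fun n => (hz5 _).le
  have h4 := hM b h1
  linarith

theorem pointwise {i k₀ T : ℕ} (hi : i ≤ k₀) {f : ℂ → ℂ} {M S : ℝ} (hM0 : 0 ≤ M) (hS0 : 0 ≤ S)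
    (hT : ∀ z : ℂ, ‖z‖ = 1 → ‖z - 1‖ ≤ (1 / 2 : ℝ) ^ i →
      (∀ k < T, gr k = i → ‖z ^ tt k - 1‖ ≤ 1 / (tt k : ℝ) ^ k) → ‖f z‖ ≤ M)
    {z : ℂ} (hz : ‖z‖ = 1) (hfS : ‖f z‖ ≤ S) :
    ‖f z‖ ≤ M + S * ((tt k₀ : ℝ) ^ (2 * k₀ + 2) * ‖z ^ 1 - 1‖ ^ 2 +
      ∑ k ∈ (Finset.Ioo k₀ T).filter (fun k => gr k = i),
        (tt k : ℝ) ^ (2 * k) * ‖z ^ tt k - 1‖ ^ 2) := by
  have htt : ∀ k, (16 : ℝ) ≤ (tt k : ℝ) := fun k => by exact_mod_cast le_tt k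
  have htp : ∀ k, (0 : ℝ) < (tt k : ℝ) := fun k => lt_of_lt_of_le (by norm_num) (htt k)
  set A : ℝ := (tt k₀ : ℝ) ^ (2 * k₀ + 2) * ‖z ^ 1 - 1‖ ^ 2 with hA
  set B : ℝ := ∑ k ∈ (Finset.Ioo k₀ T).filter (fun k => gr k = i),
        (tt k : ℝ) ^ (2 * k) * ‖z ^ tt k - 1‖ ^ 2 with hB
  have hA0 : 0 ≤ A := by positivity
  have hB0 : 0 ≤ B := Finset.sum_nonneg fun _ _ => by positivity
  have hbig : 1 ≤ A + B → ‖f z‖ ≤ M + S * (A + B) := by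
    intro h
    have h1 := mul_le_mul_of_nonneg_left h hS0
    linarith
  by_cases hA1 : 1 ≤ A
  · exact hbig (by linarith)
  · push Not at hA1
    by_cases hall : ∀ k ∈ (Finset.Ioo k₀ T).filter (fun k => gr k = i),
        ‖z ^ tt k - 1‖ ≤ 1 / (tt k : ℝ) ^ k
    · -- the point is in the truncated set
      have hp : 0 < (tt k₀ : ℝ) ^ (k₀ + 1) := pow_pos (htp k₀) _
      have hz1 : ‖z - 1‖ ≤ 1 / (tt k₀ : ℝ) ^ (k₀ + 1) := by
        rw [le_div_iff₀ hp]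
        have h1 : (‖z - 1‖ * (tt k₀ : ℝ) ^ (k₀ + 1)) ^ 2 = A := by
          rw [hA, pow_one, mul_pow, ← pow_mul]
          ring
        have h2 : (‖z - 1‖ * (tt k₀ : ℝ) ^ (k₀ + 1)) ^ 2 ≤ 1 ^ 2 := by
          rw [h1]
          linarith
        exact (pow_le_pow_iff_left₀ (by positivity) zero_le_one two_ne_zero).1 h2
      have h3 : ‖z - 1‖ ≤ (1 / 2 : ℝ) ^ i := by
        refine hz1.trans ?_
        rw [one_div_pow]
        refine one_div_le_one_div_of_le (by positivity) ?_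
        calc (2 : ℝ) ^ i ≤ (2 : ℝ) ^ (k₀ + 1) :=
              pow_le_pow_right₀ (by norm_num) (by omega)
          _ ≤ (tt k₀ : ℝ) ^ (k₀ + 1) :=
              pow_le_pow_left₀ (by norm_num) (by linarith [htt k₀]) _
      have h4 : ‖f z‖ ≤ M := by
        refine hT z hz h3 fun k hk hg => ?_
        by_cases hkk : k ≤ k₀
        · have h5 := pow_lip (tt k) hz (show ‖(1 : ℂ)‖ = 1 by simp)
          rw [one_pow] at h5
          refine h5.trans ?_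
          have h6 : (tt k : ℝ) * ‖z - 1‖ ≤ (tt k : ℝ) * (1 / (tt k₀ : ℝ) ^ (k₀ + 1)) :=
            mul_le_mul_of_nonneg_left hz1 (htp k).le
          refine h6.trans ?_
          have h7 : (tt k : ℝ) ^ (k + 1) ≤ (tt k₀ : ℝ) ^ (k₀ + 1) := by
            exact_mod_cast pow_mono hkk
          rw [mul_one_div, div_le_div_iff₀ hp (pow_pos (htp k) _), one_mul]
          calc (tt k : ℝ) * (tt k : ℝ) ^ k = (tt k : ℝ) ^ (k + 1) := by ring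
            _ ≤ _ := h7
        · exact hall k (Finset.mem_filter.2 ⟨Finset.mem_Ioo.2 ⟨by omega, hk⟩, hg⟩)
      have h5 : 0 ≤ S * (A + B) := by positivity
      linarith
    · push Not at hall
      obtain ⟨k, hk, hlt⟩ := hall
      have h1 : (1 : ℝ) ≤ (tt k : ℝ) ^ (2 * k) * ‖z ^ tt k - 1‖ ^ 2 := by
        have hp : 0 < (tt k : ℝ) ^ k := pow_pos (htp k) _
        have h2 : 1 < ‖z ^ tt k - 1‖ * (tt k : ℝ) ^ k := (div_lt_iff₀ hp).1 hlt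
        have h3 : (1 : ℝ) ≤ (‖z ^ tt k - 1‖ * (tt k : ℝ) ^ k) ^ 2 := one_le_pow₀ h2.le
        calc (1 : ℝ) ≤ (‖z ^ tt k - 1‖ * (tt k : ℝ) ^ k) ^ 2 := h3
          _ = (tt k : ℝ) ^ (2 * k) * ‖z ^ tt k - 1‖ ^ 2 := by
            rw [mul_pow, ← pow_mul, mul_comm k 2]
            ring
      have h2 : (1 : ℝ) ≤ B := h1.trans (Finset.single_le_sum
        (f := fun k => (tt k : ℝ) ^ (2 * k) * ‖z ^ tt k - 1‖ ^ 2)
        (fun _ _ => by positivity) hk)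
      exact hbig (by linarith)

end Forcing.HZ
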